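import Pool.Agent.Helper46.KSZ.St
import Pool.Agent.Helper60.KS.StE2

/-! CountE2: the prime side of the explicit formula with the factor `P(s)`. -/

set_option autoImplicit false

namespace Pool.Agent.Helper60.KE

open Pool.Agent.Helper10.QRH Pool.Agent.Helper69.QRH Pool.Agent.Helper46.KSZ
open Pool.Agent.Helper60.KS (PM S1 nE2)

/-- a cell with few numbers `q m` makes the prime side small -/
def PrimeSideE2 : Prop := ∀ (p : ℕ) (d : ℝ), 1 ≤ p → 0 < d → d ≤ 1/100 → ∃ c0 : ℝ, 0 < c0 ∧ ∃ K : ℕ,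
  ∀ k : ℕ, K ≤ k → ∀ j < 2 ^ (k - ee d k), (nE2 k (ee d k) j : ℝ) < c0 * 2 ^ ee d k / (k : ℝ) ^ 2 →
    ∑ m ∈ PM k, (∑' n : ℕ, ArithmeticFunction.vonMangoldt n *
      ker (lamk p d k) (p - 1) (uu d k j - Real.log m - Real.log n)) ≤ 1/8 * (2 : ℝ) ^ k * S1 k

end Pool.Agent.Helper60.KE
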