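import Pool.Agent.Helper60.KE.Line
import Pool.Agent.Helper60.KE.St
import Pool.Agent.Helper46.KSZ.Final

/-! CountE2: assembly of the explicit formula with the factor `P(s)`: `BadZeroE2`. -/

set_option autoImplicit false
open Filter Topology MeasureTheory Complex
open scoped Classical

namespace Pool.Agent.Helper60.KE

open Pool.Agent.Helper10.QRH Pool.Agent.Helper69.QRH Pool.Agent.Helper46.KSZ
open Pool.Agent.Helper60.KS (PM S1 nE2 DP gP S1Lower)

lemma ev_cube (A : ℝ) : ∃ K : ℕ, ∀ k : ℕ, K ≤ k → A * (k : ℝ) ^ 3 ≤ (2 : ℝ) ^ ((0.5 : ℝ) * k) := by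
  have hr : 1 < (2 : ℝ) ^ (0.5 : ℝ) := Real.one_lt_rpow (by norm_num) (by norm_num)
  have h1 := (tendsto_pow_const_div_const_pow_of_one_lt 3 hr).const_mul A
  rw [mul_zero] at h1
  have h2 := h1.eventually (gt_mem_nhds (one_pos : (0 : ℝ) < 1))
  obtain ⟨K, hK⟩ := Filter.eventually_atTop.1 h2
  refine ⟨K, fun k hk => ?_⟩
  have h3 := hK k hk
  have h4 : (0 : ℝ) < ((2 : ℝ) ^ (0.5 : ℝ)) ^ k := by positivity
  rw [← mul_div_assoc, div_lt_one h4] at h3
  rw [Real.rpow_mul (by norm_num), Real.rpow_natCast]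
  exact h3.le

/-- `2^(em k) ≤ 2^(k/2)` -/
lemma pow_em_le (k : ℕ) : (2 : ℝ) ^ KS.em k ≤ (2 : ℝ) ^ ((0.5 : ℝ) * k) := by
  rw [← Real.rpow_natCast]
  apply Real.rpow_le_rpow_of_exponent_le (by norm_num)
  have := (em_bounds k).2
  have hk : (0 : ℝ) ≤ k := k.cast_nonneg
  linarith

/-- numerical error of the shifted formula -/
lemma err_small2 (C cS : ℝ) (hC : 0 < C) (hcS : 0 < cS) (p : ℕ) (hp : 1 ≤ p) (d : ℝ) (hd : 0 < d) :
    ∃ K : ℕ, ∀ k : ℕ, K ≤ k → cS / k ≤ S1 k → ∀ u : ℝ, Real.exp u ≤ 2 * 2 ^ k →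
      2 ^ KS.em k * (C * Real.exp (2 * (u + ((p - 1 : ℕ) : ℝ) * lamk p d k)) *
        (Real.log ((2 : ℝ) ^ (5 * k) + 2)) ^ 2 / (lamk p d k ^ 2 * 2 ^ (5 * k))) ≤ 1/100 * 2 ^ k * S1 k := by
  obtain ⟨K, hK⟩ := ev_cube (C * 8 * 25 * 64 * p ^ 2 * 100 / cS)
  refine ⟨max K 1, fun k hk hS u hu => ?_⟩
  have hkK : K ≤ k := le_trans (le_max_left _ _) hk
  have hk1 : 1 ≤ k := le_trans (le_max_right _ _) hk
  have hk1r : (1 : ℝ) ≤ k := by exact_mod_cast hk1
  have hpr : (1 : ℝ) ≤ p := by exact_mod_cast hp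
  have hSp : 0 < S1 k := lt_of_lt_of_le (by positivity) hS
  set X : ℝ := (2 : ℝ) ^ k with hX
  have hX1 : 1 ≤ X := one_le_pow₀ (by norm_num)
  have hX0 : 0 < X := by linarith
  set H : ℝ := (2 : ℝ) ^ ee d k with hH
  have hH1 : 1 ≤ H := one_le_pow₀ (by norm_num)
  have hHX : H ≤ X := pow_le_pow_right₀ (by norm_num) (ee_le hd k)
  have hlam : lamk p d k = H / (8 * p * X) := rfl
  have hlam0 : 0 < lamk p d k := by rw [hlam]; positivity
  have hpl : ((p - 1 : ℕ) : ℝ) * lamk p d k ≤ 1 / 8 := by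
    have h1 : ((p - 1 : ℕ) : ℝ) ≤ p := by exact_mod_cast Nat.sub_le p 1
    calc ((p - 1 : ℕ) : ℝ) * lamk p d k ≤ p * (H / (8 * p * X)) := by
          rw [hlam]; gcongr
      _ = H / X / 8 := by field_simp
      _ ≤ 1 / 8 := by
          have : H / X ≤ 1 := by rw [div_le_one hX0]; exact hHX
          linarith
  have hexp : Real.exp (2 * (u + ((p - 1 : ℕ) : ℝ) * lamk p d k)) ≤ 8 * X ^ 2 := by
    have h1 : Real.exp (2 * (u + ((p - 1 : ℕ) : ℝ) * lamk p d k)) =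
        Real.exp u ^ 2 * Real.exp (2 * (((p - 1 : ℕ) : ℝ) * lamk p d k)) := by
      rw [← Real.exp_nat_mul, ← Real.exp_add]; congr 1; push_cast; ring
    have h2 : Real.exp (2 * (((p - 1 : ℕ) : ℝ) * lamk p d k)) ≤ 2 := by
      have h3 : Real.exp (2 * (((p - 1 : ℕ) : ℝ) * lamk p d k)) ≤ Real.exp (1 / 2) :=
        Real.exp_le_exp.2 (by linarith)
      have h4 : Real.exp (1 / 2 : ℝ) ^ 2 ≤ 2 ^ 2 := by
        rw [← Real.exp_nat_mul]
        have := Real.exp_one_lt_d9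
        norm_num
        linarith
      have h5 := Real.exp_pos (1/2 : ℝ)
      nlinarith
    have h6 : Real.exp u ^ 2 ≤ (2 * X) ^ 2 := pow_le_pow_left₀ (Real.exp_pos _).le hu 2
    rw [h1]
    have h7 := Real.exp_pos (2 * (((p - 1 : ℕ) : ℝ) * lamk p d k))
    nlinarith [sq_nonneg (Real.exp u)]
  have hlog : (Real.log ((2 : ℝ) ^ (5 * k) + 2)) ^ 2 ≤ 25 * (k : ℝ) ^ 2 := by
    have h1 : (2 : ℝ) ^ (5 * k) + 2 ≤ 2 ^ (5 * k + 1) := by
      have : (2 : ℝ) ^ 1 ≤ 2 ^ (5 * k) := pow_le_pow_right₀ (by norm_num) (by omega)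
      rw [pow_succ]
      linarith
    have h2 : Real.log ((2 : ℝ) ^ (5 * k) + 2) ≤ 5 * k := by
      have h3 := Real.log_le_log (by positivity) h1
      rw [Real.log_pow] at h3
      push_cast at h3
      have h4 := Real.log_two_lt_d9
      have h5 : (5 * (k : ℝ) + 1) * Real.log 2 ≤ (5 * k + 1) * 0.7 := by
        gcongr
        linarith
      linarith
    have h6 : 0 ≤ Real.log ((2 : ℝ) ^ (5 * k) + 2) := Real.log_nonneg (by
      have : (0 : ℝ) < 2 ^ (5 * k) := by positivity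
      linarith)
    nlinarith
  have hT : (2 : ℝ) ^ (5 * k) = X ^ 5 := by rw [hX, ← pow_mul, mul_comm]
  have hden : 1 / (64 * p ^ 2) * X ^ 3 ≤ lamk p d k ^ 2 * 2 ^ (5 * k) := by
    rw [hT, hlam]
    have : (H / (8 * p * X)) ^ 2 * X ^ 5 = H ^ 2 * (1 / (64 * p ^ 2) * X ^ 3) := by
      field_simp
      ring
    rw [this]
    have h1 : 1 ≤ H ^ 2 := one_le_pow₀ hH1
    have h2 : 0 ≤ 1 / (64 * (p : ℝ) ^ 2) * X ^ 3 := by positivity
    nlinarith
  have hden0 : 0 < lamk p d k ^ 2 * 2 ^ (5 * k) := by positivity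
  have hq : C * Real.exp (2 * (u + ((p - 1 : ℕ) : ℝ) * lamk p d k)) *
        (Real.log ((2 : ℝ) ^ (5 * k) + 2)) ^ 2 / (lamk p d k ^ 2 * 2 ^ (5 * k)) ≤
        C * 8 * 25 * 64 * p ^ 2 * k ^ 2 / X := by
    rw [div_le_iff₀ hden0]
    calc C * Real.exp (2 * (u + ((p - 1 : ℕ) : ℝ) * lamk p d k)) *
          (Real.log ((2 : ℝ) ^ (5 * k) + 2)) ^ 2 ≤ C * (8 * X ^ 2) * (25 * (k : ℝ) ^ 2) := by
          gcongr
      _ = C * 8 * 25 * 64 * p ^ 2 * k ^ 2 / X * (1 / (64 * p ^ 2) * X ^ 3) := by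
          field_simp
      _ ≤ C * 8 * 25 * 64 * p ^ 2 * k ^ 2 / X * (lamk p d k ^ 2 * 2 ^ (5 * k)) := by gcongr
  have hmain := hK k hkK
  have hMX : (2 : ℝ) ^ KS.em k ≤ (2 : ℝ) ^ ((0.5 : ℝ) * k) := pow_em_le k
  have hXX : (2 : ℝ) ^ ((0.5 : ℝ) * k) * (2 : ℝ) ^ ((0.5 : ℝ) * k) = X := by
    rw [← Real.rpow_add (by norm_num), hX, ← Real.rpow_natCast]
    congr 1
    ring
  set Y : ℝ := (2 : ℝ) ^ ((0.5 : ℝ) * k) with hY
  have hY1 : 1 ≤ Y := Real.one_le_rpow (by norm_num) (by positivity)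
  have hY0 : 0 < Y := by linarith
  calc 2 ^ KS.em k * (C * Real.exp (2 * (u + ((p - 1 : ℕ) : ℝ) * lamk p d k)) *
        (Real.log ((2 : ℝ) ^ (5 * k) + 2)) ^ 2 / (lamk p d k ^ 2 * 2 ^ (5 * k))) ≤
        Y * (C * 8 * 25 * 64 * p ^ 2 * k ^ 2 / X) := by
        apply mul_le_mul hMX hq (by positivity) hY0.le
    _ = (C * 8 * 25 * 64 * p ^ 2 * 100 / cS * (k : ℝ) ^ 3) * (1 / 100 * (cS / k)) / Y := by
        rw [← hXX]
        field_simp
    _ ≤ Y * (1 / 100 * (cS / k)) / Y := by gcongr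
    _ = 1 / 100 * (cS / k) := by field_simp
    _ ≤ 1 / 100 * S1 k := by gcongr
    _ ≤ 1 / 100 * X * S1 k := by nlinarith

/-- explicit formula for the cells, with the factor `P(ρ)` -/
def ExplicitE2 : Prop := ∀ d : ℝ, 0 < d → d ≤ 1/100 → ∃ c₀ : ℝ, 0 < c₀ ∧ ∃ K : ℕ, ∀ k : ℕ, K ≤ k →
  ∃ (c : ℂ → ℂ) (Ex : Finset ℕ), (∀ ρ : ℂ, 0 ≤ ρ.re → ρ.re ≤ 1 → ‖c ρ‖ ≤ 2) ∧
    (Ex.card : ℝ) ≤ (2 : ℝ) ^ ((0.12 + 5 * d) * k) ∧
    ∀ j < 2 ^ (k - ee d k), j ∉ Ex → (nE2 k (ee d k) j : ℝ) < c₀ * 2 ^ ee d k / (k : ℝ) ^ 2 →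
      ∀ S : Finset ℂ, (∀ ρ, ρ ∈ S ↔ ρ ∈ zeroSet d k) →
      1/2 * S1 k ≤ ‖∑ ρ ∈ S, (analyticOrderNatAt riemannZeta ρ : ℂ) * c ρ * DP gP (2 ^ KS.em k) 2 ρ *
        Complex.exp ((ρ - 1) * uu d k j)‖

lemma DP_eq (k : ℕ) (s : ℂ) : DP gP (2 ^ KS.em k) 2 s = ∑ m ∈ PM k, (m : ℂ) ^ (-s) := by
  unfold DP PM gP
  rw [Finset.sum_filter]
  refine Finset.sum_congr rfl fun m _ => ?_
  split_ifs <;> simp

lemma exp_sub_log {m : ℕ} (hm : 0 < m) (s : ℂ) (u : ℝ) :
    Complex.exp (s * ((u - Real.log m : ℝ) : ℂ)) = Complex.exp (s * u) * (m : ℂ) ^ (-s) := by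
  have hm' : (m : ℂ) ≠ 0 := by exact_mod_cast hm.ne'
  rw [Complex.cpow_def_of_ne_zero hm', ← Complex.exp_add]
  congr 1
  rw [← Complex.natCast_log]
  push_cast
  ring

lemma norm_DP_le (k : ℕ) {s : ℂ} (hs : 0 ≤ s.re) : ‖DP gP (2 ^ KS.em k) 2 s‖ ≤ 2 ^ KS.em k := by
  rw [DP_eq]
  refine (norm_sum_le _ _).trans ?_
  have h1 : ∀ m ∈ PM k, ‖(m : ℂ) ^ (-s)‖ ≤ 1 := by
    intro m hm
    have hm0 := (mem_PM hm).2.2.one_lt
    rw [Complex.norm_natCast_cpow_of_pos (by omega)]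
    apply Real.rpow_le_one_of_one_le_of_nonpos
    · exact_mod_cast hm0.le
    · simpa using hs
  refine (Finset.sum_le_card_nsmul _ _ _ h1).trans ?_
  rw [nsmul_eq_mul, mul_one]
  exact_mod_cast card_PM k

theorem explicitE2 (hS1 : S1Lower) (h1 : BoxExists) (h9 : ShiftIter) (h10 : PrimeSideE2) (h11 : LineFewE2)
    (h12 : HighZeros) : ExplicitE2 := by
  intro d hd hd1
  obtain ⟨cS, hcS, KS1, hKS1⟩ := hS1
  obtain ⟨p, hp, K12, hK12⟩ := h12 d hd hd1
  obtain ⟨c10, hc10, K10, hK10⟩ := h10 p d hp hd hd1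
  obtain ⟨K11, hK11⟩ := h11 p d hp hd hd1
  obtain ⟨C, hC, hC9⟩ := h9
  obtain ⟨Ke, hKe⟩ := err_small2 C cS hC hcS p hp d hd
  obtain ⟨Kc, hKc⟩ := ev_cube (100 / cS)
  have hpr : (1 : ℝ) ≤ p := by exact_mod_cast hp
  refine ⟨c10, hc10, max (max K12 K10) (max (max K11 Ke) (max (max KS1 Kc) 10)), fun k hk => ?_⟩
  have hkA : K12 ≤ k := le_trans (le_trans (le_max_left _ _) (le_max_left _ _)) hk
  have hkB : K10 ≤ k := le_trans (le_trans (le_max_right _ _) (le_max_left _ _)) hk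
  have hkC : K11 ≤ k := le_trans (le_trans (le_trans (le_max_left _ _) (le_max_left _ _)) (le_max_right _ _)) hk
  have hkD : Ke ≤ k := le_trans (le_trans (le_trans (le_max_right _ _) (le_max_left _ _)) (le_max_right _ _)) hk
  have hkX : max (max KS1 Kc) 10 ≤ k := le_trans (le_trans (le_max_right _ _) (le_max_right _ _)) hk
  have hkF : KS1 ≤ k := le_trans (le_trans (le_max_left _ _) (le_max_left _ _)) hkX
  have hkG : Kc ≤ k := le_trans (le_trans (le_max_right _ _) (le_max_left _ _)) hkX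
  have hkE : 10 ≤ k := le_trans (le_max_right _ _) hkX
  have hSk := hKS1 k hkF
  have hkr : (10 : ℝ) ≤ k := by exact_mod_cast hkE
  have hSp : 0 < S1 k := lt_of_lt_of_le (by positivity) hSk
  set X : ℝ := (2 : ℝ) ^ k with hX
  have hX10 : (1000 : ℝ) ≤ X := by
    have : (2 : ℝ) ^ 10 ≤ 2 ^ k := pow_le_pow_right₀ (by norm_num) hkE
    rw [hX]; norm_num at this ⊢; linarith
  have hX0 : 0 < X := by linarith
  have hX1 : 1 ≤ X := by linarith
  have hXk : ((2 ^ k : ℕ) : ℝ) = X := by push_cast; rfl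
  obtain ⟨M, Z, hBox⟩ := h1 (2 ^ (5 * k)) (by positivity)
  set T : ℝ := (2 : ℝ) ^ (5 * k) with hT
  have hT1 : 1 ≤ T := one_le_pow₀ (by norm_num)
  set lam : ℝ := lamk p d k with hlam
  set H : ℝ := (2 : ℝ) ^ ee d k with hH
  have hH1 : 1 ≤ H := one_le_pow₀ (by norm_num)
  have hHX : H ≤ X := pow_le_pow_right₀ (by norm_num) (ee_le hd k)
  have hlamE : lam = H / (8 * p * X) := rfl
  have hlam0 : 0 < lam := by rw [hlamE]; positivity
  have hplam : p * lam ≤ 1 / 8 := by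
    rw [hlamE]
    have : (p : ℝ) * (H / (8 * p * X)) = H / X / 8 := by field_simp
    rw [this]
    have : H / X ≤ 1 := by rw [div_le_one hX0]; exact hHX
    linarith
  have hlam1 : lam ≤ 1 := by nlinarith
  refine ⟨fun ρ => KK lam ρ ^ p, (Finset.range (2 ^ (k - ee d k))).filter (fun j =>
      1/100 * (2 : ℝ) ^ k * S1 k ≤
        ‖∑ m ∈ PM k, line p (lamk p d k) (2 ^ (5 * k)) Z (uu d k j - Real.log m)‖), ?_,
      hK11 k hkC M Z hBox, ?_⟩
  · intro ρ hρ0 hρ1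
    rw [norm_pow]
    have h2 := KK_norm_le hlam0 ρ
    have h3 : |ρ.re| ≤ 1 := abs_le.2 ⟨by linarith, hρ1⟩
    calc ‖KK lam ρ‖ ^ p ≤ (Real.exp (lam * |ρ.re|)) ^ p := pow_le_pow_left₀ (norm_nonneg _) h2 p
      _ = Real.exp (p * (lam * |ρ.re|)) := by rw [Real.exp_nat_mul]
      _ ≤ Real.exp (1 / 2) := by
          apply Real.exp_le_exp.2
          have : (p : ℝ) * (lam * |ρ.re|) = (p * lam) * |ρ.re| := by ring
          rw [this]
          have := abs_nonneg ρ.re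
          nlinarith
      _ ≤ 2 := by
          have h4 : Real.exp (1 / 2 : ℝ) ^ 2 ≤ 2 ^ 2 := by
            rw [← Real.exp_nat_mul]
            have := Real.exp_one_lt_d9
            norm_num
            linarith
          have h5 := Real.exp_pos (1/2 : ℝ)
          nlinarith
  intro j hj hjE hfew S hS
  set u : ℝ := uu d k j with hu
  -- the centre
  set y : ℕ := 2 ^ k + j * 2 ^ ee d k with hy
  have hyX : X ≤ y := by
    rw [← hXk]
    exact_mod_cast (by rw [hy]; exact Nat.le_add_right _ _ : 2 ^ k ≤ y)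
  have hek := ee_le hd k
  have hy2 : (y : ℝ) + H ≤ 2 * X := by
    have h2 : y + 2 ^ ee d k ≤ 2 ^ (k + 1) := by
      have h3 : (j + 1) * 2 ^ ee d k ≤ 2 ^ (k - ee d k) * 2 ^ ee d k := Nat.mul_le_mul_right _ hj
      rw [← pow_add, Nat.sub_add_cancel hek] at h3
      rw [pow_succ, hy]
      have h4 : (j + 1) * 2 ^ ee d k = j * 2 ^ ee d k + 2 ^ ee d k := by ring
      omega
    have h3 : ((y + 2 ^ ee d k : ℕ) : ℝ) ≤ ((2 ^ (k + 1) : ℕ) : ℝ) := by exact_mod_cast h2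
    push_cast at h3
    rw [pow_succ] at h3
    rw [hH, hX]
    linarith
  have heu : Real.exp u = (y : ℝ) + H / 2 := by
    rw [hu]
    unfold uu
    rw [Real.exp_log (by positivity)]
  have heuX : X ≤ Real.exp u := by rw [heu]; linarith
  have heuX2 : Real.exp u ≤ 2 * X := by rw [heu]; linarith
  have hu1 : 1 + ((p - 1 : ℕ) : ℝ) * lam ≤ u := by
    have h2 : ((p - 1 : ℕ) : ℝ) ≤ p := by exact_mod_cast Nat.sub_le p 1
    have h3 : ((p - 1 : ℕ) : ℝ) * lam ≤ 1 / 8 := (mul_le_mul_of_nonneg_right h2 hlam0.le).trans hplam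
    have h4 : (2 : ℝ) ≤ u := by
      by_contra hc
      have h5 : Real.exp u < Real.exp 2 := Real.exp_lt_exp.2 (not_le.1 hc)
      have h6 : Real.exp 2 ≤ 9 := by
        have h7 : Real.exp 2 = Real.exp 1 ^ 2 := by rw [← Real.exp_nat_mul]; norm_num
        rw [h7]
        have h8 := Real.exp_one_lt_d9
        have h9 := Real.exp_pos 1
        nlinarith
      linarith
    linarith
  have hp1 : p - 1 + 1 = p := Nat.sub_add_cancel hp
  have hexp8 : (8 : ℝ) ≤ X ^ (1 : ℕ) := by rw [pow_one]; linarith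
  -- the shifted points
  have hum : ∀ m ∈ PM k, 1 + ((p - 1 : ℕ) : ℝ) * lam ≤ u - Real.log m := by
    intro m hm
    obtain ⟨a1, a2, a3⟩ := mem_PM hm
    have hm0 : (0 : ℝ) < m := by exact_mod_cast a3.pos
    have h2 : ((p - 1 : ℕ) : ℝ) ≤ p := by exact_mod_cast Nat.sub_le p 1
    have h3 : ((p - 1 : ℕ) : ℝ) * lam ≤ 1 / 8 := (mul_le_mul_of_nonneg_right h2 hlam0.le).trans hplam
    have h4 : (m : ℝ) ≤ 2 ^ (KS.em k + 1) := by
      rw [pow_succ, mul_comm]; exact_mod_cast a2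
    have h5 : Real.log m ≤ (KS.em k + 1 : ℕ) * Real.log 2 := by
      have := Real.log_le_log hm0 h4
      rwa [Real.log_pow] at this
    have h6 : (k : ℝ) * Real.log 2 ≤ u := by
      have h7 : Real.log X ≤ u := by
        rw [Real.log_le_iff_le_exp hX0]; exact heuX
      rwa [hX, Real.log_pow] at h7
    have h8 := (em_bounds k).2
    have h9 := Real.log_two_gt_d9
    push_cast at h5
    have h10 : ((k : ℝ) - (KS.em k + 1)) * Real.log 2 ≥ 4 * Real.log 2 := by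
      apply mul_le_mul_of_nonneg_right _ (by linarith)
      linarith
    linarith
  have hformm : ∀ m ∈ PM k, ‖lhs (ker lam (p - 1)) p lam M (u - Real.log m) -
      line p lam T Z (u - Real.log m)‖ ≤
      C * Real.exp (2 * (u + ((p - 1 : ℕ) : ℝ) * lam)) * (Real.log (T + 2)) ^ 2 / (lam ^ 2 * T) := by
    intro m hm
    have hform := hC9 T M Z hT1 hBox lam (u - Real.log m) (p - 1) hlam0 hlam1 (hum m hm)
    rw [hp1] at hform
    refine hform.trans ?_
    have hm0 : (1 : ℝ) ≤ m := by exact_mod_cast (mem_PM hm).2.2.pos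
    have hlogm : 0 ≤ Real.log m := Real.log_nonneg hm0
    have hexp : Real.exp (2 * (u - Real.log m + ((p - 1 : ℕ) : ℝ) * lam)) ≤
        Real.exp (2 * (u + ((p - 1 : ℕ) : ℝ) * lam)) := Real.exp_le_exp.2 (by linarith)
    gcongr
  have herr := hKe k hkD hSk u heuX2
  have hform2 : ‖∑ m ∈ PM k, lhs (ker lam (p - 1)) p lam M (u - Real.log m) -
      ∑ m ∈ PM k, line p lam T Z (u - Real.log m)‖ ≤ 1/100 * X * S1 k := by
    rw [← Finset.sum_sub_distrib]
    refine (norm_sum_le _ _).trans ((Finset.sum_le_card_nsmul _ _ _ hformm).trans ?_)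
    rw [nsmul_eq_mul]
    refine le_trans (mul_le_mul_of_nonneg_right ?_ ?_) herr
    · exact_mod_cast card_PM k
    · positivity
  have hline : ‖∑ m ∈ PM k, line p lam T Z (u - Real.log m)‖ < 1/100 * X * S1 k := by
    by_contra hc
    apply hjE
    rw [Finset.mem_filter, Finset.mem_range]
    exact ⟨hj, not_lt.1 hc⟩
  have hlhs : ‖∑ m ∈ PM k, lhs (ker lam (p - 1)) p lam M (u - Real.log m)‖ ≤ 1/50 * X * S1 k := by
    have := norm_add_le (∑ m ∈ PM k, lhs (ker lam (p - 1)) p lam M (u - Real.log m) -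
      ∑ m ∈ PM k, line p lam T Z (u - Real.log m)) (∑ m ∈ PM k, line p lam T Z (u - Real.log m))
    rw [sub_add_cancel] at this
    linarith
  have hprime := hK10 k hkB j hj hfew
  set P : ℝ := ∑ m ∈ PM k, ∑' n : ℕ, ArithmeticFunction.vonMangoldt n *
    ker lam (p - 1) (u - Real.log m - Real.log n) with hP
  have hP8 : P ≤ 1/8 * X * S1 k := hprime
  obtain ⟨κ, hκ, hκe⟩ := KK_one_ge hlam0
  have hκp : 1 ≤ κ ^ p := one_le_pow₀ hκ
  set PP : ℂ → ℂ := fun ρ => DP gP (2 ^ KS.em k) 2 ρ with hPP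
  have hS1e : ∑ m ∈ PM k, Real.exp (u - Real.log m) = Real.exp u * S1 k := by
    unfold S1
    rw [Finset.mul_sum]
    refine Finset.sum_congr rfl fun m hm => ?_
    have hm0 : (0 : ℝ) < m := by exact_mod_cast (mem_PM hm).2.2.pos
    rw [Real.exp_sub, Real.exp_log hm0]
    ring
  have hms : ∀ N : Multiset ℂ, ∑ m ∈ PM k, (N.map (fun ρ => Complex.exp (ρ * ((u - Real.log m : ℝ) : ℂ)) *
      KK lam ρ ^ p)).sum = (N.map (fun ρ => Complex.exp (ρ * u) * PP ρ * KK lam ρ ^ p)).sum := by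
    intro N
    have hone : ∀ ρ : ℂ, ∑ m ∈ PM k, Complex.exp (ρ * ((u - Real.log m : ℝ) : ℂ)) * KK lam ρ ^ p =
        Complex.exp (ρ * u) * PP ρ * KK lam ρ ^ p := by
      intro ρ
      rw [← Finset.sum_mul]
      congr 1
      rw [hPP]
      simp only
      rw [DP_eq, Finset.mul_sum]
      exact Finset.sum_congr rfl fun m hm => exp_sub_log (mem_PM hm).2.2.pos ρ u
    induction N using Multiset.induction_on with
    | empty => simp
    | cons a N ih =>
      simp only [Multiset.map_cons, Multiset.sum_cons]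
      rw [Finset.sum_add_distrib, ih, hone]
  have hlhsE : ∑ m ∈ PM k, lhs (ker lam (p - 1)) p lam M (u - Real.log m) =
      ((P - Real.exp u * S1 k * κ ^ p : ℝ) : ℂ) +
      (M.map (fun ρ => Complex.exp (ρ * u) * PP ρ * KK lam ρ ^ p)).sum := by
    rw [← hms M]
    have e1 : ∀ m ∈ PM k, lhs (ker lam (p - 1)) p lam M (u - Real.log m) =
        ((∑' n : ℕ, ArithmeticFunction.vonMangoldt n * ker lam (p - 1) (u - Real.log m - Real.log n) : ℝ) : ℂ)
        - ((Real.exp (u - Real.log m) : ℝ) : ℂ) * ((κ ^ p : ℝ) : ℂ) +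
        (M.map (fun ρ => Complex.exp (ρ * ((u - Real.log m : ℝ) : ℂ)) * KK lam ρ ^ p)).sum := by
      intro m _
      unfold lhs
      rw [hκe]
      push_cast
      ring
    rw [Finset.sum_congr rfl e1, Finset.sum_add_distrib, Finset.sum_sub_distrib, ← Finset.sum_mul,
      ← Complex.ofReal_sum, ← Complex.ofReal_sum, hS1e, ← hP]
    push_cast
    ring
  have hmainlow : Real.exp u * S1 k - 1/8 * X * S1 k - 1/50 * X * S1 k ≤
      ‖(M.map (fun ρ => Complex.exp (ρ * u) * PP ρ * KK lam ρ ^ p)).sum‖ := by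
    have h2 : ‖((P - Real.exp u * S1 k * κ ^ p : ℝ) : ℂ)‖ ≥ Real.exp u * S1 k - 1/8 * X * S1 k := by
      rw [Complex.norm_real, Real.norm_eq_abs, abs_sub_comm]
      refine le_trans ?_ (le_abs_self _)
      have h3 : 0 < Real.exp u * S1 k := mul_pos (Real.exp_pos u) hSp
      nlinarith
    have h3 := norm_sub_le_norm_add ((P - Real.exp u * S1 k * κ ^ p : ℝ) : ℂ)
      (M.map (fun ρ => Complex.exp (ρ * u) * PP ρ * KK lam ρ ^ p)).sum
    rw [← hlhsE] at h3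
    linarith
  -- low and high zeros
  set B : ℝ := (2 : ℝ) ^ ((1/2 + 2 * d) * k) with hB
  set Mh := M.filter (fun ρ => B < |ρ.im|) with hMh
  set Ml := M.filter (fun ρ => ¬ B < |ρ.im|) with hMl
  have hsplit : Mh + Ml = M := Multiset.filter_add_not _ _
  have hhigh := hK12 k hkA M Z hBox j hj
  have hMsmall : (2 : ℝ) ^ KS.em k ≤ 1/100 * X * S1 k := by
    have h2 := hKc k hkG
    have h3 := pow_em_le k
    set Y : ℝ := (2 : ℝ) ^ ((0.5 : ℝ) * k) with hY
    have hYY : Y * Y = X := by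
      rw [hY, ← Real.rpow_add (by norm_num), hX, ← Real.rpow_natCast]
      congr 1
      ring
    have hY0 : 0 < Y := by positivity
    have hk0 : (0 : ℝ) < k := by linarith
    have h4 : 1 ≤ 1 / 100 * Y * S1 k := by
      have h5 : 100 / cS * (k : ℝ) ≤ Y := by
        refine le_trans ?_ h2
        apply mul_le_mul_of_nonneg_left _ (by positivity)
        exact le_self_pow₀ (by linarith) (by norm_num)
      calc (1 : ℝ) = 1 / 100 * (100 / cS * (k : ℝ)) * (cS / k) := by field_simp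
        _ ≤ 1 / 100 * Y * S1 k := by gcongr
    calc (2 : ℝ) ^ KS.em k ≤ Y * 1 := by linarith
      _ ≤ Y * (1 / 100 * Y * S1 k) := by gcongr
      _ = 1/100 * X * S1 k := by rw [← hYY]; ring
  have hhigh2 : ‖(Mh.map (fun ρ => Complex.exp (ρ * u) * PP ρ * KK lam ρ ^ p)).sum‖ ≤ 1/100 * X * S1 k := by
    refine le_trans ?_ hMsmall
    have h2 := Multiset.le_sum_of_subadditive (fun z : ℂ => ‖z‖) (by simp) (fun a b => norm_add_le a b)
      (Mh.map (fun ρ => Complex.exp (ρ * u) * PP ρ * KK lam ρ ^ p))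
    rw [Multiset.map_map] at h2
    refine h2.trans ?_
    have h3 : (Mh.map (fun ρ => ‖Complex.exp (ρ * u) * PP ρ * KK lam ρ ^ p‖)).sum ≤
        (Mh.map (fun ρ => 2 ^ KS.em k * ‖Complex.exp (ρ * u) * KK lam ρ ^ p‖)).sum := by
      apply Multiset.sum_map_le_sum_map
      intro ρ hρ
      rw [hMh, Multiset.mem_filter] at hρ
      obtain ⟨-, h4, h5, -⟩ := hBox.mem ρ hρ.1
      rw [norm_mul, norm_mul, norm_mul]
      have h6 := norm_DP_le k (s := ρ) (by linarith)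
      calc ‖Complex.exp (ρ * u)‖ * ‖PP ρ‖ * ‖KK lam ρ ^ p‖ =
          ‖PP ρ‖ * (‖Complex.exp (ρ * u)‖ * ‖KK lam ρ ^ p‖) := by ring
        _ ≤ _ := mul_le_mul_of_nonneg_right h6 (by positivity)
    refine h3.trans ?_
    rw [Multiset.sum_map_mul_left]
    calc (2 : ℝ) ^ KS.em k * _ ≤ 2 ^ KS.em k * 1 := by
          apply mul_le_mul_of_nonneg_left hhigh (by positivity)
      _ = 2 ^ KS.em k := mul_one _
  have hlow : Real.exp u * S1 k - 1/8 * X * S1 k - 1/50 * X * S1 k - 1/100 * X * S1 k ≤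
      ‖(Ml.map (fun ρ => Complex.exp (ρ * u) * PP ρ * KK lam ρ ^ p)).sum‖ := by
    have h2 : (M.map (fun ρ => Complex.exp (ρ * u) * PP ρ * KK lam ρ ^ p)).sum =
        (Mh.map (fun ρ => Complex.exp (ρ * u) * PP ρ * KK lam ρ ^ p)).sum +
        (Ml.map (fun ρ => Complex.exp (ρ * u) * PP ρ * KK lam ρ ^ p)).sum := by
      rw [← hsplit, Multiset.map_add, Multiset.sum_add]
    have h3 := norm_add_le (Mh.map (fun ρ => Complex.exp (ρ * u) * PP ρ * KK lam ρ ^ p)).sum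
      (Ml.map (fun ρ => Complex.exp (ρ * u) * PP ρ * KK lam ρ ^ p)).sum
    rw [← h2] at h3
    linarith
  -- the finset
  have hBT : B < T + 2 := by
    have h2 : B ≤ T := by
      rw [hB, hT, ← Real.rpow_natCast]
      apply Real.rpow_le_rpow_of_exponent_le (by norm_num)
      push_cast
      exact mul_le_mul_of_nonneg_right (by linarith) k.cast_nonneg
    linarith
  have hmemS : ∀ ρ, ρ ∈ S ↔ ρ ∈ Ml := by
    intro ρ
    rw [hS, hMl, Multiset.mem_filter]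
    constructor
    · rintro ⟨h2, h3, h4⟩
      refine ⟨?_, not_lt.2 h4⟩
      have hρT : |ρ.im| < T + 2 := lt_of_le_of_lt h4 hBT
      have hne := hBox.ne ρ h3 hρT
      have hρ1 : ρ ≠ 1 := by
        rintro rfl
        exact riemannZeta_one_ne_zero h2
      have hE0 : EZ ρ = 0 := by rw [EZ_eq hρ1, h2, mul_zero]
      have hQ := hBox.eq ρ
      rw [hE0] at hQ
      have hQ0 : Qp M ρ = 0 := by
        rcases mul_eq_zero.1 hQ.symm with h | h
        · exact h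
        · exact absurd h hne
      by_contra hc
      exact Qp_ne_zero M ρ (fun a ha hρa => hc (hρa ▸ ha)) hQ0
    · rintro ⟨h2, h3⟩
      obtain ⟨h4, h5, h6, h7⟩ := hBox.mem ρ h2
      exact ⟨h4, h5, not_lt.1 h3⟩
  have hSfin : Ml.toFinset = S := by
    ext ρ
    rw [Multiset.mem_toFinset, hmemS]
  have hsum : (Ml.map (fun ρ => Complex.exp (ρ * u) * PP ρ * KK lam ρ ^ p)).sum =
      Complex.exp u * ∑ ρ ∈ S, (analyticOrderNatAt riemannZeta ρ : ℂ) * (KK lam ρ ^ p) *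
        DP gP (2 ^ KS.em k) 2 ρ * Complex.exp ((ρ - 1) * u) := by
    rw [Finset.sum_multiset_map_count, hSfin, Finset.mul_sum]
    refine Finset.sum_congr rfl fun ρ hρ => ?_
    have h2 := (hmemS ρ).1 hρ
    rw [hMl, Multiset.mem_filter] at h2
    obtain ⟨h4, h5, h6, h7⟩ := hBox.mem ρ h2.1
    have hcount : Ml.count ρ = analyticOrderNatAt riemannZeta ρ := by
      rw [hMl, Multiset.count_filter_of_pos (p := fun ρ : ℂ => ¬ B < |ρ.im|) h2.2]
      exact hBox.count ρ h4 h5 h7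
    rw [hcount, nsmul_eq_mul]
    have h8 : Complex.exp (ρ * u) = Complex.exp u * Complex.exp ((ρ - 1) * u) := by
      rw [← Complex.exp_add]; congr 1; ring
    rw [h8, hPP]
    ring
  rw [hsum, norm_mul, Complex.norm_exp, Complex.ofReal_re] at hlow
  have hupos := Real.exp_pos u
  have hfin : Real.exp u * (1/2 * S1 k) ≤ Real.exp u * ‖∑ ρ ∈ S, (analyticOrderNatAt riemannZeta ρ : ℂ) *
      (KK lam ρ ^ p) * DP gP (2 ^ KS.em k) 2 ρ * Complex.exp ((ρ - 1) * u)‖ := by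
    refine le_trans ?_ hlow
    have h9 : X * S1 k ≤ Real.exp u * S1 k := mul_le_mul_of_nonneg_right heuX hSp.le
    have h10 : 0 < X * S1 k := mul_pos hX0 hSp
    nlinarith
  exact le_of_mul_le_mul_left hfin hupos

end Pool.Agent.Helper60.KE
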