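import Pool.Agent.Helper60.KE.Main
import Pool.Agent.Helper60.KE.Assembly

/-! CountE2: the counting theorem for the cells without numbers `q m`. -/

set_option autoImplicit false
set_option maxHeartbeats 4000000
open Filter Topology
open scoped Classical

namespace Pool.Agent.Helper60.KE
open Pool.Agent.Helper60.KS Pool.Agent.Helper60.KC

/-- the elementary conditions for large `X` -/
lemma large_XE {C ε0 δ d : ℝ} (hp : ParE ε0 δ d) (hC : 0 < C) : ∀ᶠ X : ℝ in atTop,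
    8 ≤ X ∧ 10 ≤ Real.log X ∧ X ^ (1/2 + 2 * d) + 4 ≤ X ∧ X ^ (1/2 + 2 * d) + 1 ≤ X ^ (0.6 : ℝ) ∧
    240 * C * Real.log X ^ 4 ≤ X ^ (0.503 * ε0) ∧ 20 * (1 / δ + 2) * (C + 1) ≤ Real.log X ∧
    2 * (C * Real.log X) ≤ Real.log X ^ 2 ∧ 10 * C * Real.log X ^ 3 ≤ X ^ (0.4 : ℝ) ∧
    X ^ (0.12 + 5 * d) + Real.log X ^ 4 * X ^ (0.171 : ℝ) ≤ X ^ (0.172 : ℝ) := by
  have hδ := hp.dpos
  have hδ' := hp.dsmall
  have hd4 := hp.h4
  have hd5 := hp.h5
  have hε := hp.h1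
  have ev : ∀ B : ℝ, ∀ᶠ X : ℝ in atTop, B ≤ Real.log X := fun B =>
    Real.tendsto_log_atTop.eventually (eventually_ge_atTop B)
  filter_upwards [eventually_ge_atTop 8, ev 10, small (Real.log (240 * C)) 4 (0.503 * ε0) (by positivity),
    ev (20 * (1 / δ + 2) * (C + 1)), ev (2 * C), small 0 4 0.0005 (by norm_num), ev 10000,
    small (Real.log (10 * C)) 3 0.4 (by norm_num)] with X h8 hl h3 h4 h5 h6 h7 h9
  have hX : 0 < X := by linarith
  have hl0 : 0 < Real.log X := by linarith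
  set l := Real.log X with hldef
  have e1 : X ^ (1/2 + 2 * d) ≤ X ^ (0.51 : ℝ) := Real.rpow_le_rpow_of_exponent_le (by linarith) (by linarith)
  have e2 : (2:ℝ) ≤ X ^ (0.09 : ℝ) := by
    rw [← Real.log_le_log_iff (by norm_num) (by positivity), Real.log_rpow hX]
    have := Real.log_two_lt_d9; linarith
  have e3 : (4:ℝ) ≤ X ^ (0.51 : ℝ) := by
    rw [← Real.log_le_log_iff (by norm_num) (by positivity), Real.log_rpow hX]
    have := Real.log_two_lt_d9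
    have h44 : Real.log 4 = 2 * Real.log 2 := by
      rw [show (4:ℝ) = 2 ^ 2 by norm_num, Real.log_pow]; norm_num
    rw [h44]; linarith
  have e4 : X ^ (0.6 : ℝ) = X ^ (0.51 : ℝ) * X ^ (0.09 : ℝ) := by
    rw [← Real.rpow_add hX]; norm_num
  have e5 : X ^ (1/2 + 2 * d) + 4 ≤ X ^ (0.6 : ℝ) := by
    rw [e4]; nlinarith
  have e6 : X ^ (0.6 : ℝ) ≤ X := by
    calc X ^ (0.6 : ℝ) ≤ X ^ (1 : ℝ) := Real.rpow_le_rpow_of_exponent_le (by linarith) (by norm_num)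
      _ = X := Real.rpow_one _
  refine ⟨h8, hl, by linarith, by linarith, ?_, h4, ?_, ?_, ?_⟩
  · rw [← Real.log_le_log_iff (by positivity) (by positivity), Real.log_mul (by positivity) (by positivity),
      Real.log_pow, Real.log_rpow hX]
    simpa using h3
  · nlinarith
  · rw [← Real.log_le_log_iff (by positivity) (by positivity), Real.log_mul (by positivity) (by positivity),
      Real.log_pow, Real.log_rpow hX]
    simpa using h9
  · have f1 : l ^ 4 ≤ X ^ (0.0005 : ℝ) := by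
      rw [← Real.log_le_log_iff (by positivity) (by positivity), Real.log_pow, Real.log_rpow hX]
      simpa using h6
    have f2 : l ^ 4 * X ^ (0.171 : ℝ) ≤ X ^ (0.1715 : ℝ) := by
      calc l ^ 4 * X ^ (0.171 : ℝ) ≤ X ^ (0.0005 : ℝ) * X ^ (0.171 : ℝ) :=
            mul_le_mul_of_nonneg_right f1 (by positivity)
        _ = X ^ (0.1715 : ℝ) := by rw [← Real.rpow_add hX]; norm_num
    have f3 : X ^ (0.12 + 5 * d) ≤ X ^ (0.1715 : ℝ) := Real.rpow_le_rpow_of_exponent_le (by linarith) (by linarith)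
    have f4 : (2:ℝ) ≤ X ^ (0.0005 : ℝ) := by
      rw [← Real.log_le_log_iff (by norm_num) (by positivity), Real.log_rpow hX]
      have := Real.log_two_lt_d9; linarith
    have f5 : X ^ (0.172 : ℝ) = X ^ (0.1715 : ℝ) * X ^ (0.0005 : ℝ) := by
      rw [← Real.rpow_add hX]; norm_num
    have f6 : 0 < X ^ (0.1715 : ℝ) := by positivity
    rw [f5]; nlinarith

/-- the size of `P(ρ)` -/
lemma P_bound {k : ℕ} (hk : 500 ≤ k) (ρ : ℂ) (_h0 : 0 ≤ ρ.re) (h1 : ρ.re ≤ 1) :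
    ‖DP gP (2 ^ em k) 2 ρ‖ ≤ S1 k * ((2:ℝ) ^ k) ^ (0.497 * (1 - ρ.re)) := by
  have hkr : (500 : ℝ) ≤ k := by exact_mod_cast hk
  rw [DP_eq]
  refine (norm_sum_le _ _).trans ?_
  unfold S1
  rw [Finset.sum_mul]
  apply Finset.sum_le_sum
  intro m hm
  obtain ⟨a1, a2, a3⟩ := mem_PM hm
  have hm0 : (0:ℝ) < m := by exact_mod_cast a3.pos
  rw [Complex.norm_natCast_cpow_of_pos a3.pos, Complex.neg_re]
  have e1 : (m:ℝ) ^ (-ρ.re) = 1 / m * (m:ℝ) ^ (1 - ρ.re) := by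
    rw [one_div, ← Real.rpow_neg_one, ← Real.rpow_add hm0]
    congr 1; ring
  rw [e1]
  apply mul_le_mul_of_nonneg_left _ (by positivity)
  have e2 : (m:ℝ) ≤ ((2:ℝ) ^ k) ^ (0.497 : ℝ) := by
    have e3 : (m:ℝ) ≤ 2 ^ (em k + 1) := by
      rw [pow_succ, mul_comm]; exact_mod_cast a2
    refine e3.trans ?_
    rw [← Real.rpow_natCast 2 k, ← Real.rpow_mul (by norm_num), ← Real.rpow_natCast]
    apply Real.rpow_le_rpow_of_exponent_le (by norm_num)
    have := (em_bounds k).2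
    push_cast
    linarith
  calc (m:ℝ) ^ (1 - ρ.re) ≤ (((2:ℝ) ^ k) ^ (0.497 : ℝ)) ^ (1 - ρ.re) :=
        Real.rpow_le_rpow hm0.le e2 (by linarith)
    _ = ((2:ℝ) ^ k) ^ (0.497 * (1 - ρ.re)) := by rw [← Real.rpow_mul (by positivity)]

lemma S1_le_one (k : ℕ) : S1 k ≤ 1 := by
  unfold S1
  have h1 : ∀ m ∈ PM k, 1 / (m:ℝ) ≤ 1 / (2:ℝ) ^ em k := by
    intro m hm
    obtain ⟨a1, a2, a3⟩ := mem_PM hm
    apply one_div_le_one_div_of_le (by positivity)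
    exact_mod_cast a1.le
  refine (Finset.sum_le_card_nsmul _ _ _ h1).trans ?_
  rw [nsmul_eq_mul, mul_one_div, div_le_one (by positivity)]
  exact_mod_cast card_PM k

/-- counting theorem with the factor `P` -/
theorem countE2_of (hB : BadZeroE2) (hN : ThmNk 0.503) (hS1 : S1Lower) (hA : A9i) (hD : Detect)
    (hCB : ClassBoundE2) (hS : SplitSpaced) : CountE2 0.172 := by
  obtain ⟨ε0, X1, e1, e2, hN⟩ := hN
  obtain ⟨C, hC, hA⟩ := hA
  obtain ⟨cS, hcS, KS1, hKS1⟩ := hS1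
  refine ⟨ε0 / 10 ^ 8, by positivity, fun d hd hd1 => ?_⟩
  set δ := ε0 / 10 ^ 8 with hδdef
  have hp : ParE ε0 δ d := ⟨e1, e2, hδdef, hd, hd1⟩
  have hδ := hp.dpos
  have hδ' := hp.dsmall
  obtain ⟨c0, hc0, K1, hB⟩ := hB d hd (by linarith)
  obtain ⟨X2, hD⟩ := hD δ d hδ (by linarith) hd hd1
  obtain ⟨X3, hCB⟩ := hCB ε0 δ d e1 e2 hδdef hd hd1
  refine ⟨c0, hc0, ?_⟩
  have hev : ∀ᶠ X : ℝ in atTop, (X1 ≤ X ∧ X2 ≤ X ∧ X3 ≤ X) ∧
      (8 ≤ X ∧ 10 ≤ Real.log X ∧ X ^ (1/2 + 2 * d) + 4 ≤ X ∧ X ^ (1/2 + 2 * d) + 1 ≤ X ^ (0.6 : ℝ) ∧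
      240 * C * Real.log X ^ 4 ≤ X ^ (0.503 * ε0) ∧ 20 * (1 / δ + 2) * (C + 1) ≤ Real.log X ∧
      2 * (C * Real.log X) ≤ Real.log X ^ 2 ∧ 10 * C * Real.log X ^ 3 ≤ X ^ (0.4 : ℝ) ∧
      X ^ (0.12 + 5 * d) + Real.log X ^ 4 * X ^ (0.171 : ℝ) ≤ X ^ (0.172 : ℝ)) := by
    filter_upwards [eventually_ge_atTop X1, eventually_ge_atTop X2, eventually_ge_atTop X3, large_XE hp hC]
      with X a b c h using ⟨⟨a, b, c⟩, h⟩
  have hev2 := (tendsto_pow_atTop_atTop_of_one_lt (by norm_num : (1:ℝ) < 2)).eventually hev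
  obtain ⟨K, hK⟩ := eventually_atTop.mp hev2
  refine ⟨max (max K K1) (max (max KS1 500) ⌈320 / cS⌉₊), fun k hk => ?_⟩
  have hkK : K ≤ k := le_trans (le_trans (le_max_left _ _) (le_max_left _ _)) hk
  have hk1 : K1 ≤ k := le_trans (le_trans (le_max_right _ _) (le_max_left _ _)) hk
  have hkS : KS1 ≤ k := le_trans (le_trans (le_trans (le_max_left _ _) (le_max_left _ _)) (le_max_right _ _)) hk
  have hk5 : 500 ≤ k := le_trans (le_trans (le_trans (le_max_right _ _) (le_max_left _ _)) (le_max_right _ _)) hk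
  have hkc : ⌈320 / cS⌉₊ ≤ k := le_trans (le_trans (le_max_right _ _) (le_max_right _ _)) hk
  have hkr : (500 : ℝ) ≤ k := by exact_mod_cast hk5
  obtain ⟨⟨hX1, hX2, hX3⟩, h8, hl, g1, g2, g3, g4, g5, g7, g6⟩ := hK k hkK
  obtain ⟨F, c, u, Exc, b1, b2, b3, b4, b5, b6⟩ := hB k hk1
  have hSk := hKS1 k hkS
  have hSl : 80 / Real.log ((2:ℝ) ^ k) ^ 2 ≤ S1 k := by
    refine le_trans ?_ hSk
    have h1 : (k:ℝ) / 2 ≤ Real.log ((2:ℝ) ^ k) := by
      rw [Real.log_pow]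
      have := Real.log_two_gt_d9
      nlinarith
    have h2 : (320 : ℝ) / cS ≤ k := le_trans (Nat.le_ceil _) (by exact_mod_cast hkc)
    rw [div_le_iff₀ hcS] at h2
    rw [div_le_div_iff₀ (by positivity) (by positivity)]
    have h3 : ((k:ℝ) / 2) ^ 2 ≤ Real.log ((2:ℝ) ^ k) ^ 2 := pow_le_pow_left₀ (by positivity) h1 2
    calc 80 * (k:ℝ) = 320 * k / 4 := by ring
      _ ≤ (k * cS) * k / 4 := by gcongr
      _ = cS * ((k:ℝ) / 2) ^ 2 := by ring
      _ ≤ _ := by gcongr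
  have hM0 : ((2:ℝ) ^ k) ^ (0.495 : ℝ) / 4 ≤ ((2 ^ em k : ℕ) : ℝ) := by
    push_cast
    have h1 : ((2:ℝ) ^ k) ^ (0.495 : ℝ) ≤ 2 ^ (em k + 1) := by
      rw [← Real.rpow_natCast 2 k, ← Real.rpow_mul (by norm_num), ← Real.rpow_natCast]
      apply Real.rpow_le_rpow_of_exponent_le (by norm_num)
      have := (em_bounds k).1
      push_cast
      linarith
    rw [pow_succ] at h1
    have : (0:ℝ) < 2 ^ em k := by positivity
    linarith
  have hM1 : ((2 ^ em k : ℕ) : ℝ) ≤ ((2:ℝ) ^ k) ^ (0.495 : ℝ) := by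
    push_cast
    rw [← Real.rpow_natCast 2 k, ← Real.rpow_mul (by norm_num), ← Real.rpow_natCast]
    apply Real.rpow_le_rpow_of_exponent_le (by norm_num)
    have := (em_bounds k).2
    linarith
  have hmain := main_countE (DP gP (2 ^ em k) 2) hp hC h8 hl hSl (S1_le_one k)
    (fun ρ h0 h1 => P_bound hk5 ρ h0 h1) hA
    (fun F hF => hN _ hX1 F hF) (fun x hx0 hx1 => hD _ x hX2 hx0 hx1)
    (fun x V Z c g N U h => hCB _ x V Z c g N (2 ^ em k) U hX3 h.hx0 h.hx1 hM0 hM1 h.hV h.hs h.hsp h.hg h.hN0 h.hN1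
      h.hD h.hP h.hc h.hU h.hUs h.hS)
    hS g1 g2 g3 g4 g5 g7 F c u (2 ^ (k - ec d k)) b1 b2 b3 b4
  set Bd := (Finset.range (2 ^ (k - ec d k))).filter (fun j =>
    (nE2 k (ec d k) j : ℝ) < c0 * 2 ^ ec d k / (k:ℝ) ^ 2) with hBd
  set Lg := (Finset.range (2 ^ (k - ec d k))).filter (fun j => 1/2 * S1 k ≤ ‖∑ ρ ∈ F, (mz ρ : ℂ) * c ρ *
      DP gP (2 ^ em k) 2 ρ * Complex.exp ((ρ - 1) * (u j : ℂ))‖) with hLg
  have hsub : Bd ⊆ Exc ∪ Lg := by
    intro j hj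
    rw [hBd, Finset.mem_filter, Finset.mem_range] at hj
    rw [Finset.mem_union]
    by_cases hE : j ∈ Exc
    · exact Or.inl hE
    · right
      rw [hLg, Finset.mem_filter, Finset.mem_range]
      exact ⟨hj.1, b6 j hj.1 hE hj.2⟩
  have hcard : (Bd.card : ℝ) ≤ Exc.card + Lg.card := by
    exact_mod_cast le_trans (Finset.card_le_card hsub) (Finset.card_union_le _ _)
  have hpow : (2:ℝ) ^ (0.172 * (k:ℝ)) = ((2:ℝ) ^ k) ^ (0.172 : ℝ) := by
    rw [← Real.rpow_natCast, ← Real.rpow_mul (by norm_num)]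
    ring_nf
  rw [hpow]
  linarith

end Pool.Agent.Helper60.KE
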