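import Pool.Agent.Helper60.KE.Assembly
import Pool.Agent.Helper1.KL.S1Lower

/-! CountE2: `BadZeroE2` from the prime side. -/

set_option autoImplicit false
open Filter Topology MeasureTheory Complex
open scoped Classical

namespace Pool.Agent.Helper60.KE

open Pool.Agent.Helper10.QRH Pool.Agent.Helper69.QRH Pool.Agent.Helper46.KSZ

theorem explicitE2' (h10 : PrimeSideE2) : ExplicitE2 :=
  explicitE2 Helper1.KL.s1Lower Helper33.KSZ.boxExists
    (Helper8.KSZ.shiftIter Helper79.QRH.kFacts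
      (Helper8.KSZ.shift Helper79.QRH.kFacts gBound'
        (Helper48.KSZ.lineTwo Helper79.QRH.kFacts gBound')) Helper9.KSZ.kerFacts)
    h10
    (lineFewE2 Helper1.KL.s1Lower Helper79.QRH.kFacts gBound')
    (Helper18.KSZ.highZeros Helper79.QRH.kFacts cardBox')

/-- explicit formula for the cells with the factor `P(s)` -/
theorem badZeroE2 (h10 : PrimeSideE2) : Helper60.KS.BadZeroE2 := by
  intro d hd0 hd
  obtain ⟨c₀, hc₀, K, hK⟩ := explicitE2' h10 d hd0 hd
  refine ⟨c₀, hc₀, max K ⌈2 / d⌉₊, fun k hk => ?_⟩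
  obtain ⟨c, Ex, hc, hEx, hall⟩ := hK k ((le_max_left _ _).trans hk)
  have hfin := explicitCells'.1 d k
  have hdk : 2 ≤ d * k := by
    have h1 : (⌈2 / d⌉₊ : ℝ) ≤ k := by exact_mod_cast (le_max_right _ _).trans hk
    have h2 := (Nat.le_ceil (2 / d)).trans h1
    rw [div_le_iff₀ hd0] at h2
    linarith
  have hpow : ∀ x : ℝ, ((2 : ℝ) ^ k) ^ x = (2 : ℝ) ^ (x * k) := by
    intro x
    rw [← Real.rpow_natCast 2 k, ← Real.rpow_mul (by norm_num), mul_comm]
  have hmem : ∀ ρ, ρ ∈ hfin.toFinset ↔ ρ ∈ zeroSet d k := fun ρ => by simp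
  refine ⟨hfin.toFinset, c, uu d k, Ex, ?_, ?_, ?_, ?_, ?_, ?_⟩
  · intro ρ hρ
    obtain ⟨h0, h1, h2⟩ := (hmem ρ).1 hρ
    refine ⟨h0, by norm_num at h1 ⊢; exact h1, ?_⟩
    rw [hpow]
    linarith
  · intro ρ hρ
    obtain ⟨h0, h1, h2⟩ := (hmem ρ).1 hρ
    refine hc ρ (by linarith) ?_
    by_contra hcon
    exact riemannZeta_ne_zero_of_one_le_re (not_le.1 hcon).le h0
  · intro j hj
    obtain ⟨h1, h2, -⟩ := uu_range hd0 (j := j) (k := k) hj
    exact ⟨h1, h2⟩
  · intro j hj j' hj' hne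
    rcases lt_or_gt_of_ne hne with h | h
    · refine (uu_spacing hd0 hdk hj hj' h).trans ?_
      rw [abs_sub_comm]
      exact le_abs_self _
    · exact (uu_spacing hd0 hdk hj' hj h).trans (le_abs_self _)
  · rw [hpow]
    exact hEx
  · intro j hj hjE hfew
    exact hall j hj hjE hfew _ hmem

end Pool.Agent.Helper60.KE
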