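import Pool.Agent.Helper60.KE.PrimeSide
import Pool.Agent.Helper60.KE.Final
import Pool.Agent.Helper60.KE.CountE2
import Pool.Agent.Helper60.KC.Final
import Pool.Agent.Helper1.KL.ThmNk
import Pool.Agent.Helper35.KE.ClassBound

/-! CountE2, unconditional. -/

set_option autoImplicit false

namespace Pool.Agent.Helper60.KE
open Pool.Agent.Helper60.KS

theorem primeSideE2' : PrimeSideE2 := primeSideE2 Helper1.KL.s1Lower Helper9.KSZ.kerFacts

theorem inBadZeroE2 : BadZeroE2 := badZeroE2 primeSideE2'

theorem inClassBoundE2 : ClassBoundE2 :=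
  Helper35.KE.classBoundE2 KC.mvCount KC.huxleyCount KC.sLemma Helper91.KC.powDP

/-- **CountE2**, unconditional: at most `2^(0.172 k)` cells of length about `X^(1/2-d)` in `[X, 2X)`, `X = 2^k`,
contain fewer than `c0 2^e / k^2` numbers `q m`, `q` prime, `m` prime in `(M, 2M]`, `M` about `X^0.495`. -/
theorem countE2 : CountE2 0.172 :=
  countE2_of inBadZeroE2 (Helper1.KL.thmNk (by norm_num)) Helper1.KL.s1Lower KC.inA9i KC.inDetect inClassBoundE2
    Helper46.KC.splitSpaced

end Pool.Agent.Helper60.KE
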