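import Pool.Agent.Helper52.QRH.Duality

/-! CountE2: duality inequality with a Dirichlet polynomial factor (plain mean square). -/

set_option autoImplicit false
open Filter Topology MeasureTheory

namespace Pool.Agent.Helper60.KE

open Pool.Agent.Helper52.QRH

/-- the weighted second moment of an exponential polynomial with coefficients -/
lemma second_momentW {lam : ℝ} (hl : 0 < lam) (R : Finset ℝ)
    (hR : ∀ u ∈ R, ∀ u' ∈ R, u ≠ u' → lam ≤ |u - u'|) (a : ℝ → ℂ) :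
    Integrable (fun t : ℝ => 1 / (1 + (lam * t) ^ 2) *
      ‖∑ u ∈ R, a u * Complex.exp (t * u * Complex.I)‖ ^ 2) ∧
    ∫ t : ℝ, 1 / (1 + (lam * t) ^ 2) * ‖∑ u ∈ R, a u * Complex.exp (t * u * Complex.I)‖ ^ 2 ≤
      Real.pi / lam * C0 * ∑ u ∈ R, ‖a u‖ ^ 2 := by
  have hexpand : ∀ t : ℝ, ((1 / (1 + (lam * t) ^ 2) *
      ‖∑ u ∈ R, a u * Complex.exp (t * u * Complex.I)‖ ^ 2 : ℝ) : ℂ) =
      ∑ u ∈ R, ∑ u' ∈ R, (a u * (starRingEnd ℂ) (a u')) *
        (((1 / (1 + (lam * t) ^ 2) : ℝ) : ℂ) * Complex.exp (t * (u - u' : ℝ) * Complex.I)) := by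
    intro t
    have h1 : ((‖∑ u ∈ R, a u * Complex.exp (t * u * Complex.I)‖ ^ 2 : ℝ) : ℂ) =
        (∑ u ∈ R, a u * Complex.exp (t * u * Complex.I)) *
          (starRingEnd ℂ) (∑ u ∈ R, a u * Complex.exp (t * u * Complex.I)) := by
      rw [Complex.mul_conj, Complex.normSq_eq_norm_sq]
    rw [Complex.ofReal_mul, h1, map_sum, Finset.sum_mul_sum, Finset.mul_sum]
    refine Finset.sum_congr rfl fun u _ => ?_
    rw [Finset.mul_sum]
    refine Finset.sum_congr rfl fun u' _ => ?_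
    rw [map_mul, ← Complex.exp_conj]
    have h2 : (starRingEnd ℂ) (t * u' * Complex.I) = -(t * u' * Complex.I) := by
      simp
    have h3 : Complex.exp (t * (u - u' : ℝ) * Complex.I) =
        Complex.exp (t * u * Complex.I) * Complex.exp (-(t * u' * Complex.I)) := by
      rw [← Complex.exp_add]; congr 1; push_cast; ring
    rw [h2, h3]
    ring
  have hint1 : ∀ v : ℝ, Integrable (fun t : ℝ => ((1 / (1 + (lam * t) ^ 2) : ℝ) : ℂ) *
      Complex.exp (t * v * Complex.I)) := by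
    intro v
    have h := (lorentz_integrable hl).ofReal (𝕜 := ℂ)
    refine h.mul_bdd (c := 1) ?_ ?_
    · exact Continuous.aestronglyMeasurable (by fun_prop)
    · refine Filter.Eventually.of_forall fun t => ?_
      have : (t * v * Complex.I : ℂ) = ((t * v : ℝ) : ℂ) * Complex.I := by push_cast; ring
      rw [this, Complex.norm_exp_ofReal_mul_I]
  have hintc : Integrable (fun t : ℝ => ((1 / (1 + (lam * t) ^ 2) *
      ‖∑ u ∈ R, a u * Complex.exp (t * u * Complex.I)‖ ^ 2 : ℝ) : ℂ)) := by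
    simp only [hexpand]
    refine integrable_finsetSum _ fun u _ => integrable_finsetSum _ fun u' _ => ?_
    exact (hint1 (u - u')).const_mul _
  refine ⟨hintc.re, ?_⟩
  have h1 : ((∫ t : ℝ, 1 / (1 + (lam * t) ^ 2) *
      ‖∑ u ∈ R, a u * Complex.exp (t * u * Complex.I)‖ ^ 2 : ℝ) : ℂ) =
      ∑ u ∈ R, ∑ u' ∈ R, (a u * (starRingEnd ℂ) (a u')) *
        ∫ t : ℝ, (((1 / (1 + (lam * t) ^ 2) : ℝ) : ℂ) * Complex.exp (t * (u - u' : ℝ) * Complex.I)) := by
    rw [← integral_complex_ofReal]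
    simp only [hexpand]
    rw [integral_finsetSum _ (fun u _ => integrable_finsetSum _ fun u' _ => (hint1 (u - u')).const_mul _)]
    refine Finset.sum_congr rfl fun u _ => ?_
    rw [integral_finsetSum _ (fun u' _ => (hint1 (u - u')).const_mul _)]
    refine Finset.sum_congr rfl fun u' _ => ?_
    rw [integral_const_mul]
  have h2 : ∫ t : ℝ, 1 / (1 + (lam * t) ^ 2) *
      ‖∑ u ∈ R, a u * Complex.exp (t * u * Complex.I)‖ ^ 2 ≤
      ‖((∫ t : ℝ, 1 / (1 + (lam * t) ^ 2) *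
      ‖∑ u ∈ R, a u * Complex.exp (t * u * Complex.I)‖ ^ 2 : ℝ) : ℂ)‖ := by
    rw [Complex.norm_real]; exact le_abs_self _
  refine h2.trans ?_
  rw [h1]
  have hsymm : ∀ u u' : ℝ, Real.exp (-(|u - u'| / lam)) = Real.exp (-(|u' - u| / lam)) := by
    intro u u'; rw [abs_sub_comm]
  calc _ ≤ ∑ u ∈ R, ∑ u' ∈ R, (‖a u‖ * ‖a u'‖) * (Real.pi / lam * Real.exp (-(|u - u'| / lam))) := by
        refine (norm_sum_le _ _).trans (Finset.sum_le_sum fun u _ => ?_)
        refine (norm_sum_le _ _).trans (Finset.sum_le_sum fun u' _ => ?_)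
        rw [norm_mul, norm_fourier_lorentz hl, norm_mul, RCLike.norm_conj]
    _ ≤ ∑ u ∈ R, ∑ u' ∈ R, (1/2 * (‖a u‖ ^ 2 * (Real.pi / lam * Real.exp (-(|u - u'| / lam)))) +
          1/2 * (‖a u'‖ ^ 2 * (Real.pi / lam * Real.exp (-(|u' - u| / lam))))) := by
        refine Finset.sum_le_sum fun u _ => Finset.sum_le_sum fun u' _ => ?_
        rw [hsymm u' u]
        have hE : 0 ≤ Real.pi / lam * Real.exp (-(|u - u'| / lam)) := by positivity
        have h3 : ‖a u‖ * ‖a u'‖ ≤ 1/2 * ‖a u‖ ^ 2 + 1/2 * ‖a u'‖ ^ 2 := by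
          nlinarith [sq_nonneg (‖a u‖ - ‖a u'‖)]
        calc _ ≤ (1/2 * ‖a u‖ ^ 2 + 1/2 * ‖a u'‖ ^ 2) * (Real.pi / lam * Real.exp (-(|u - u'| / lam))) :=
              mul_le_mul_of_nonneg_right h3 hE
          _ = _ := by ring
    _ = 1/2 * (∑ u ∈ R, ‖a u‖ ^ 2 * (Real.pi / lam * ∑ u' ∈ R, Real.exp (-(|u - u'| / lam)))) +
        1/2 * (∑ u' ∈ R, ‖a u'‖ ^ 2 * (Real.pi / lam * ∑ u ∈ R, Real.exp (-(|u' - u| / lam)))) := by
        simp only [Finset.sum_add_distrib]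
        rw [Finset.sum_comm (s := R) (t := R) (f := fun u u' =>
          1/2 * (‖a u'‖ ^ 2 * (Real.pi / lam * Real.exp (-(|u' - u| / lam)))))]
        simp only [Finset.mul_sum]
    _ ≤ 1/2 * (∑ u ∈ R, ‖a u‖ ^ 2 * (Real.pi / lam * C0)) + 1/2 * (∑ u' ∈ R, ‖a u'‖ ^ 2 * (Real.pi / lam * C0)) := by
        have hp : ∀ u ∈ R, ‖a u‖ ^ 2 * (Real.pi / lam * ∑ u' ∈ R, Real.exp (-(|u - u'| / lam))) ≤
            ‖a u‖ ^ 2 * (Real.pi / lam * C0) := by
          intro u _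
          exact mul_le_mul_of_nonneg_left (mul_le_mul_of_nonneg_left (packing hl R hR u) (by positivity))
            (by positivity)
        have := Finset.sum_le_sum hp
        linarith
    _ = Real.pi / lam * C0 * ∑ u ∈ R, ‖a u‖ ^ 2 := by
        rw [← Finset.sum_mul]
        ring

lemma sq_le_of_amgm {S X Y : ℝ} (hS : 0 ≤ S) (hX : 0 ≤ X) (hY : 0 ≤ Y)
    (h : ∀ a : ℝ, 0 < a → S ≤ a / 2 * X + 1 / (2 * a) * Y) : S ^ 2 ≤ X * Y := by
  rcases hS.eq_or_lt with h0 | h0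
  · rw [← h0]; simpa using mul_nonneg hX hY
  rcases hX.eq_or_lt with hX0 | hX0
  · exfalso
    have := h ((Y + 1) / S) (by positivity)
    rw [← hX0, mul_zero, zero_add] at this
    have e : 1 / (2 * ((Y + 1) / S)) * Y = S * (Y / (2 * (Y + 1))) := by field_simp
    rw [e] at this
    have h2 : Y / (2 * (Y + 1)) < 1 := by rw [div_lt_one (by positivity)]; linarith
    nlinarith
  · have := h (S / X) (by positivity)
    have e : S / X / 2 * X + 1 / (2 * (S / X)) * Y = S / 2 + X * Y / (2 * S) := by field_simp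
    rw [e] at this
    have h2 : S / 2 ≤ X * Y / (2 * S) := by linarith
    rw [le_div_iff₀ (by positivity)] at h2
    nlinarith

/-- duality with a Dirichlet polynomial factor -/
theorem duality2 {lam : ℝ} (hl : 0 < lam) (g : ℝ → ℂ) (hg : Measurable g) {B : ℝ} (hB : 0 ≤ B)
    (hgb : ∀ t, ‖g t‖ ≤ B / (1 + (lam * t) ^ 2)) (V : Finset ℝ)
    (hV : ∀ u ∈ V, ∀ u' ∈ V, u ≠ u' → lam ≤ |u - u'|) (a : ℝ → ℂ) (R : Finset ℝ)
    (hR : ∀ u ∈ R, ∀ u' ∈ R, u ≠ u' → lam ≤ |u - u'|) :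
    (∑ u ∈ R, ‖∫ t : ℝ, g t * (∑ v ∈ V, a v * Complex.exp (t * v * Complex.I)) *
      Complex.exp (t * u * Complex.I)‖) ^ 2 ≤
      B ^ 2 * ((Real.pi / lam * C0) ^ 2 * (∑ v ∈ V, ‖a v‖ ^ 2) * R.card) := by
  have hC0 := C0_pos
  choose ph hph1 hph2 using exists_phase
  set Q : ℝ → ℂ := fun t => ∑ v ∈ V, a v * Complex.exp (t * v * Complex.I) with hQ
  have hlor := lorentz_integrable hl
  have hexp1 : ∀ t u : ℝ, ‖Complex.exp (t * u * Complex.I)‖ = 1 := by
    intro t u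
    have : (t * u * Complex.I : ℂ) = ((t * u : ℝ) : ℂ) * Complex.I := by push_cast; ring
    rw [this, Complex.norm_exp_ofReal_mul_I]
  have hQc : Continuous Q := by
    rw [hQ]
    fun_prop
  have hQb : ∀ t, ‖Q t‖ ≤ ∑ v ∈ V, ‖a v‖ := by
    intro t
    refine (norm_sum_le _ _).trans (Finset.sum_le_sum fun v _ => ?_)
    rw [norm_mul, hexp1, mul_one]
  have hgi : Integrable g := by
    refine (hlor.const_mul B).mono' hg.aestronglyMeasurable (Filter.Eventually.of_forall fun t => ?_)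
    refine (hgb t).trans (le_of_eq ?_)
    ring
  have hgQ : Integrable (fun t : ℝ => g t * Q t) :=
    hgi.mul_bdd (c := ∑ v ∈ V, ‖a v‖) hQc.aestronglyMeasurable (Filter.Eventually.of_forall hQb)
  have hgi' : ∀ u : ℝ, Integrable (fun t : ℝ => g t * Q t * Complex.exp (t * u * Complex.I)) := by
    intro u
    refine hgQ.mul_bdd (c := 1) (Continuous.aestronglyMeasurable (by fun_prop)) ?_
    exact Filter.Eventually.of_forall fun t => (hexp1 t u).le
  set ε : ℝ → ℂ := fun u => ph (∫ t : ℝ, g t * Q t * Complex.exp (t * u * Complex.I)) with hε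
  obtain ⟨hI2, hI2b⟩ := second_moment hl R hR ε (fun u => hph1 _)
  obtain ⟨hI1, hI1b⟩ := second_momentW hl V hV a
  set S : ℝ → ℂ := fun t => ∑ u ∈ R, ε u * Complex.exp (t * u * Complex.I) with hS
  have hsum : ((∑ u ∈ R, ‖∫ t : ℝ, g t * Q t * Complex.exp (t * u * Complex.I)‖ : ℝ) : ℂ) =
      ∫ t : ℝ, g t * Q t * S t := by
    push_cast
    have : ∀ t : ℝ, g t * Q t * S t = ∑ u ∈ R, ε u * (g t * Q t * Complex.exp (t * u * Complex.I)) := by
      intro t
      rw [hS]; simp only [Finset.mul_sum]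
      refine Finset.sum_congr rfl fun u _ => by ring
    simp only [this]
    rw [integral_finsetSum _ (fun u _ => (hgi' u).const_mul _)]
    refine Finset.sum_congr rfl fun u _ => ?_
    rw [integral_const_mul, hε]
    exact (hph2 _).symm
  set X0 : ℝ := Real.pi / lam * C0 * ∑ v ∈ V, ‖a v‖ ^ 2 with hX0
  set Y0 : ℝ := Real.pi / lam * R.card * C0 with hY0
  have hX0p : 0 ≤ X0 := by positivity
  have hY0p : 0 ≤ Y0 := by positivity
  have hamgm : ∀ b : ℝ, 0 < b → ∑ u ∈ R, ‖∫ t : ℝ, g t * Q t * Complex.exp (t * u * Complex.I)‖ ≤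
      b / 2 * (B * X0) + 1 / (2 * b) * (B * Y0) := by
    intro b hb
    have e1 : ∑ u ∈ R, ‖∫ t : ℝ, g t * Q t * Complex.exp (t * u * Complex.I)‖ ≤
        ∫ t : ℝ, ‖g t * Q t * S t‖ := by
      have h2 : ∑ u ∈ R, ‖∫ t : ℝ, g t * Q t * Complex.exp (t * u * Complex.I)‖ ≤
        ‖((∑ u ∈ R, ‖∫ t : ℝ, g t * Q t * Complex.exp (t * u * Complex.I)‖ : ℝ) : ℂ)‖ := by
        rw [Complex.norm_real]; exact le_abs_self _
      rw [hsum] at h2
      exact h2.trans (norm_integral_le_integral_norm _)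
    refine e1.trans ?_
    have hi : Integrable (fun t : ℝ => (b / 2 * B) * (1 / (1 + (lam * t) ^ 2) * ‖Q t‖ ^ 2) +
        (1 / (2 * b) * B) * (1 / (1 + (lam * t) ^ 2) * ‖S t‖ ^ 2)) :=
      (hI1.const_mul _).add (hI2.const_mul _)
    calc ∫ t : ℝ, ‖g t * Q t * S t‖ ≤ ∫ t : ℝ, ((b / 2 * B) * (1 / (1 + (lam * t) ^ 2) * ‖Q t‖ ^ 2) +
        (1 / (2 * b) * B) * (1 / (1 + (lam * t) ^ 2) * ‖S t‖ ^ 2)) := by
          refine integral_mono_of_nonneg (Filter.Eventually.of_forall fun t => norm_nonneg _) hi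
            (Filter.Eventually.of_forall fun t => ?_)
          simp only
          rw [norm_mul, norm_mul]
          have hp : (0 : ℝ) < 1 + (lam * t) ^ 2 := by positivity
          have b1 : ‖g t‖ * ‖Q t‖ * ‖S t‖ ≤ B / (1 + (lam * t) ^ 2) * (‖Q t‖ * ‖S t‖) := by
            rw [mul_assoc]
            exact mul_le_mul_of_nonneg_right (hgb t) (by positivity)
          refine b1.trans ?_
          have b2 : ‖Q t‖ * ‖S t‖ ≤ b / 2 * ‖Q t‖ ^ 2 + 1 / (2 * b) * ‖S t‖ ^ 2 := by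
            have key : b / 2 * ‖Q t‖ ^ 2 + 1 / (2 * b) * ‖S t‖ ^ 2 - ‖Q t‖ * ‖S t‖ =
              1 / (2 * b) * (b * ‖Q t‖ - ‖S t‖) ^ 2 := by
              field_simp
              ring
            have : 0 ≤ 1 / (2 * b) * (b * ‖Q t‖ - ‖S t‖) ^ 2 := by positivity
            linarith
          calc B / (1 + (lam * t) ^ 2) * (‖Q t‖ * ‖S t‖) ≤
              B / (1 + (lam * t) ^ 2) * (b / 2 * ‖Q t‖ ^ 2 + 1 / (2 * b) * ‖S t‖ ^ 2) :=
                mul_le_mul_of_nonneg_left b2 (by positivity)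
            _ = _ := by ring
      _ = (b / 2 * B) * (∫ t : ℝ, 1 / (1 + (lam * t) ^ 2) * ‖Q t‖ ^ 2) +
          (1 / (2 * b) * B) * ∫ t : ℝ, 1 / (1 + (lam * t) ^ 2) * ‖S t‖ ^ 2 := by
          rw [integral_add (hI1.const_mul _) (hI2.const_mul _), integral_const_mul, integral_const_mul]
      _ ≤ (b / 2 * B) * X0 + (1 / (2 * b) * B) * Y0 := by
          gcongr
      _ = _ := by ring
  have h1 := sq_le_of_amgm (Finset.sum_nonneg fun u _ => norm_nonneg _) (by positivity) (by positivity) hamgm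
  refine h1.trans (le_of_eq ?_)
  rw [hX0, hY0]
  ring

end Pool.Agent.Helper60.KE
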