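import Pool.Agent.Helper60.KE.Dual2
import Pool.Agent.Helper60.KS.StE2
import Pool.Agent.Helper8.KSZ.LineFew

/-! CountE2: the line integral with the factor `P(s)`. -/

set_option autoImplicit false
open Filter Topology MeasureTheory

namespace Pool.Agent.Helper60.KE

open Pool.Agent.Helper10.QRH Pool.Agent.Helper69.QRH Pool.Agent.Helper46.KSZ Pool.Agent.Helper8.KSZ
open Pool.Agent.Helper60.KS (PM S1 S1Lower)
open Pool.Agent.Helper52.QRH (C0 C0_pos)

/-- the line integral is small outside of few cells -/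
def LineFewE2 : Prop := ∀ (p : ℕ) (d : ℝ), 1 ≤ p → 0 < d → d ≤ 1/100 → ∃ K : ℕ, ∀ k : ℕ, K ≤ k →
  ∀ (M : Multiset ℂ) (Z : ℂ → ℂ), Box (2 ^ (5 * k)) M Z →
    (((Finset.range (2 ^ (k - ee d k))).filter (fun j =>
      1/100 * (2 : ℝ) ^ k * S1 k ≤
        ‖∑ m ∈ PM k, line p (lamk p d k) (2 ^ (5 * k)) Z (uu d k j - Real.log m)‖)).card : ℝ) ≤
      (2 : ℝ) ^ ((0.12 + 5 * d) * k)

lemma mem_PM {k m : ℕ} (h : m ∈ PM k) : 2 ^ KS.em k < m ∧ m ≤ 2 * 2 ^ KS.em k ∧ m.Prime := by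
  unfold PM at h
  rw [Finset.mem_filter, Finset.mem_Ioc] at h
  exact ⟨h.1.1, h.1.2, h.2⟩

lemma card_PM (k : ℕ) : (PM k).card ≤ 2 ^ KS.em k := by
  unfold PM
  refine (Finset.card_filter_le _ _).trans ?_
  rw [Nat.card_Ioc]
  omega

lemma em_bounds (k : ℕ) : (0.495 : ℝ) * k - 1 ≤ KS.em k ∧ (KS.em k : ℝ) ≤ 0.495 * k := by
  unfold KS.em
  have h1 : 200 * (99 * k / 200) ≤ 99 * k := Nat.mul_div_le _ _
  have h2 : 99 * k < 200 * (99 * k / 200) + 200 := by omega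
  have h1' : 200 * ((99 * k / 200 : ℕ) : ℝ) ≤ 99 * k := by exact_mod_cast h1
  have h2' : (99 : ℝ) * k < 200 * ((99 * k / 200 : ℕ) : ℝ) + 200 := by exact_mod_cast h2
  constructor <;> linarith

lemma exists_K6 (C : ℝ) : ∃ K : ℕ, ∀ k : ℕ, K ≤ k → C * (k : ℝ) ^ 6 ≤ (2 : ℝ) ^ ((0.01 : ℝ) * k) := by
  have hr : 1 < (2 : ℝ) ^ (0.01 : ℝ) := Real.one_lt_rpow (by norm_num) (by norm_num)
  have h1 := (tendsto_pow_const_div_const_pow_of_one_lt 6 hr).const_mul C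
  rw [mul_zero] at h1
  have h2 := h1.eventually (gt_mem_nhds (one_pos : (0 : ℝ) < 1))
  obtain ⟨K, hK⟩ := Filter.eventually_atTop.1 h2
  refine ⟨K, fun k hk => ?_⟩
  have h3 := hK k hk
  have h4 : (0 : ℝ) < ((2 : ℝ) ^ (0.01 : ℝ)) ^ k := by positivity
  rw [← mul_div_assoc, div_lt_one h4] at h3
  rw [Real.rpow_mul (by norm_num), Real.rpow_natCast]
  exact h3.le

lemma gg_bound' {p : ℕ} (hp : 1 ≤ p) {lam T CK L : ℝ} {Z : ℂ → ℂ} (hCK : 0 ≤ CK) (hL : 0 ≤ L)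
    (hKK : ∀ s : ℂ, 0 ≤ s.re → s.re ≤ 2 → ‖KK lam s‖ ≤ CK / (1 + (lam * s.im) ^ 2))
    (hG : ∀ s : ℂ, 0.605 ≤ s.re → s.re ≤ 2 → |s.im| ≤ T → ‖logDeriv Z s‖ ≤ L) (t : ℝ) :
    ‖LF.gg p lam T Z t‖ ≤ (CK ^ p * L) / (1 + (lam * t) ^ 2) := by
  unfold LF.gg
  by_cases ht : t ∈ Set.Ioc (-T) T
  · rw [Set.indicator_of_mem ht, norm_mul, norm_pow, norm_neg]
    have h1 := hKK ((0.605 : ℝ) + t * Complex.I) (by rw [LF.line_re]; norm_num)
      (by rw [LF.line_re]; norm_num)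
    rw [LF.line_im] at h1
    have h2 := hG ((0.605 : ℝ) + t * Complex.I) (by rw [LF.line_re])
      (by rw [LF.line_re]; norm_num) (by rw [LF.line_im]; exact abs_le.2 ⟨ht.1.le, ht.2⟩)
    have h3 : (1 : ℝ) ≤ 1 + (lam * t) ^ 2 := by nlinarith [sq_nonneg (lam * t)]
    have h4 : ‖KK lam ((0.605 : ℝ) + t * Complex.I)‖ ^ p ≤ CK ^ p / (1 + (lam * t) ^ 2) := by
      calc ‖KK lam ((0.605 : ℝ) + t * Complex.I)‖ ^ p ≤ (CK / (1 + (lam * t) ^ 2)) ^ p := by
            gcongr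
        _ = CK ^ p / (1 + (lam * t) ^ 2) ^ p := by rw [div_pow]
        _ ≤ CK ^ p / (1 + (lam * t) ^ 2) := by
            apply div_le_div_of_nonneg_left (by positivity) (by positivity)
            exact le_self_pow₀ h3 (by omega)
    calc ‖KK lam ((0.605 : ℝ) + t * Complex.I)‖ ^ p * ‖logDeriv Z ((0.605 : ℝ) + t * Complex.I)‖
        ≤ (CK ^ p / (1 + (lam * t) ^ 2)) * L := by gcongr
      _ = (CK ^ p * L) / (1 + (lam * t) ^ 2) := by ring
  · rw [Set.indicator_of_notMem ht, norm_zero]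
    positivity

/-- the points `-log m` are spaced -/
lemma PM_sep {p : ℕ} (hp : 1 ≤ p) {d : ℝ} (hd : 0 < d) {k m m' : ℕ} (hm : m ∈ PM k) (hm' : m' ∈ PM k)
    (h : m < m') : lamk p d k ≤ Real.log m' - Real.log m := by
  obtain ⟨a1, a2, a3⟩ := mem_PM hm
  obtain ⟨b1, b2, b3⟩ := mem_PM hm'
  have hm0 : (0 : ℝ) < m := by exact_mod_cast a3.pos
  have hm1 : (m : ℝ) + 1 ≤ m' := by exact_mod_cast h
  have hm'0 : (0 : ℝ) < m' := by linarith
  have h1 := Helper30.QRH.log_gap hm0 (by linarith : (m : ℝ) ≤ m')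
  refine le_trans ?_ h1
  have h2 : (m' : ℝ) ≤ 2 * 2 ^ KS.em k := by exact_mod_cast b2
  have h3 : 1 / (2 * (2 : ℝ) ^ KS.em k) ≤ ((m' : ℝ) - m) / m' :=
    div_le_div₀ (by linarith) (by linarith) hm'0 h2
  refine le_trans ?_ h3
  unfold lamk
  have hp' : (1 : ℝ) ≤ p := by exact_mod_cast hp
  rw [div_le_div_iff₀ (by positivity) (by positivity), one_mul]
  have h4 : ee d k + KS.em k ≤ k := by
    have h5 : ee d k ≤ k / 2 := by
      rw [Nat.le_div_iff_mul_le (by norm_num)]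
      unfold ee
      have hk0 : (0 : ℝ) ≤ k := k.cast_nonneg
      rcases le_or_gt 0 ((k : ℝ) * (1/2 - d)) with h0 | h0
      · have h6 := Nat.floor_le h0
        have h8 : ((⌊(k : ℝ) * (1/2 - d)⌋₊ * 2 : ℕ) : ℝ) ≤ (k : ℕ) := by
          push_cast
          nlinarith
        exact_mod_cast h8
      · rw [Nat.floor_of_nonpos h0.le]
        simp
    have h7 : KS.em k ≤ k / 2 := by
      unfold KS.em
      omega
    omega
  calc (2 : ℝ) ^ ee d k * (2 * 2 ^ KS.em k) = 2 * 2 ^ (ee d k + KS.em k) := by rw [pow_add]; ring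
    _ ≤ 2 * 2 ^ k := by gcongr; norm_num
    _ ≤ 8 * p * 2 ^ k := by
        have : (0 : ℝ) < 2 ^ k := by positivity
        nlinarith

lemma sum_sq_PM (k : ℕ) : ∑ m ∈ PM k, ((m : ℝ) ^ (-(0.605 : ℝ))) ^ 2 ≤ 2 * (2 : ℝ) ^ (-(0.1039 : ℝ) * k) := by
  have h0 : (0 : ℝ) < 2 ^ KS.em k := by positivity
  have h1 : ∀ m ∈ PM k, ((m : ℝ) ^ (-(0.605 : ℝ))) ^ 2 ≤ ((2 : ℝ) ^ KS.em k) ^ (-(1.21 : ℝ)) := by
    intro m hm
    obtain ⟨a1, a2, a3⟩ := mem_PM hm
    have hm0 : (0 : ℝ) < m := by exact_mod_cast a3.pos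
    have hm1 : (2 : ℝ) ^ KS.em k ≤ m := by exact_mod_cast a1.le
    have e : ((m : ℝ) ^ (-(0.605 : ℝ))) ^ 2 = (m : ℝ) ^ (-(1.21 : ℝ)) := by
      rw [← Real.rpow_natCast, ← Real.rpow_mul hm0.le]
      norm_num
    rw [e]
    exact Real.rpow_le_rpow_of_nonpos h0 hm1 (by norm_num)
  refine (Finset.sum_le_card_nsmul _ _ _ h1).trans ?_
  rw [nsmul_eq_mul]
  have h2 : ((PM k).card : ℝ) ≤ 2 ^ KS.em k := by exact_mod_cast card_PM k
  calc ((PM k).card : ℝ) * ((2 : ℝ) ^ KS.em k) ^ (-(1.21 : ℝ)) ≤ 2 ^ KS.em k * ((2 : ℝ) ^ KS.em k) ^ (-(1.21 : ℝ)) := by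
        gcongr
    _ = (2 : ℝ) ^ (-(0.21 : ℝ) * KS.em k) := by
        rw [← Real.rpow_natCast 2 (KS.em k), ← Real.rpow_mul (by norm_num), ← Real.rpow_add (by norm_num)]
        congr 1
        ring
    _ ≤ (2 : ℝ) ^ (-(0.1039 : ℝ) * k + 1) := by
        apply Real.rpow_le_rpow_of_exponent_le (by norm_num)
        have := (em_bounds k).1
        linarith
    _ = 2 * (2 : ℝ) ^ (-(0.1039 : ℝ) * k) := by
        rw [Real.rpow_add_one (by norm_num)]; ring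

/-- the sum of the line integrals -/
lemma sum_line (k p : ℕ) {lam T : ℝ} (hT : 0 ≤ T) (Z : ℂ → ℂ) (u : ℝ)
    (hint : ∀ v : ℝ, Integrable (fun t : ℝ => LF.gg p lam T Z t * Complex.exp (t * v * Complex.I))) :
    ∑ m ∈ PM k, line p lam T Z (u - Real.log m) =
      (1 / (2 * Real.pi)) * (Complex.exp ((0.605 : ℝ) * u) *
        ∫ t : ℝ, LF.gg p lam T Z t * (∑ v ∈ (PM k).image (fun m : ℕ => -Real.log m),
          ((Real.exp (0.605 * v) : ℝ) : ℂ) * Complex.exp (t * v * Complex.I)) * Complex.exp (t * u * Complex.I)) := by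
  have hinj : Set.InjOn (fun m : ℕ => -Real.log (m : ℝ)) (PM k : Set ℕ) := by
    intro a ha b hb hab
    have ha' := (mem_PM ha).2.2.pos
    have hb' := (mem_PM hb).2.2.pos
    have h1 : Real.log (a : ℝ) = Real.log b := by
      have : -Real.log (a : ℝ) = -Real.log b := hab
      linarith
    have h2 := Real.log_injOn_pos (Set.mem_Ioi.2 (by exact_mod_cast ha' : (0 : ℝ) < a))
      (Set.mem_Ioi.2 (by exact_mod_cast hb' : (0 : ℝ) < b)) h1
    exact_mod_cast h2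
  have e1 : ∀ m ∈ PM k, line p lam T Z (u - Real.log m) =
      (1 / (2 * Real.pi)) * (Complex.exp ((0.605 : ℝ) * u) *
        (((Real.exp (0.605 * (-Real.log m)) : ℝ) : ℂ) *
          ∫ t : ℝ, LF.gg p lam T Z t * Complex.exp (t * (u - Real.log m : ℝ) * Complex.I))) := by
    intro m _
    rw [LF.line_eq hT]
    congr 1
    rw [← mul_assoc]
    congr 1
    · rw [Complex.ofReal_exp, ← Complex.exp_add]
      congr 1
      push_cast
      ring
  rw [Finset.sum_congr rfl e1, ← Finset.mul_sum, ← Finset.mul_sum]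
  congr 2
  have e2 : ∀ t : ℝ, LF.gg p lam T Z t * (∑ v ∈ (PM k).image (fun m : ℕ => -Real.log m),
      ((Real.exp (0.605 * v) : ℝ) : ℂ) * Complex.exp (t * v * Complex.I)) * Complex.exp (t * u * Complex.I) =
      ∑ m ∈ PM k, ((Real.exp (0.605 * (-Real.log m)) : ℝ) : ℂ) *
        (LF.gg p lam T Z t * Complex.exp (t * (u - Real.log m : ℝ) * Complex.I)) := by
    intro t
    rw [Finset.sum_image hinj, Finset.mul_sum, Finset.sum_mul]
    refine Finset.sum_congr rfl fun m _ => ?_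
    have : Complex.exp (t * (u - Real.log m : ℝ) * Complex.I) =
        Complex.exp (t * ((-Real.log m : ℝ) : ℂ) * Complex.I) * Complex.exp (t * u * Complex.I) := by
      rw [← Complex.exp_add]
      congr 1
      push_cast
      ring
    rw [this]
    ring
  simp only [e2]
  rw [integral_finsetSum _ (fun m _ => (hint _).const_mul _)]
  exact Finset.sum_congr rfl fun m _ => (integral_const_mul _ _).symm

/-- LineFewE2 -/
theorem lineFewE2 (hS1 : S1Lower) (hK : KFacts) (hG : GBound) : LineFewE2 := by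
  obtain ⟨cS, hcS, KS1, hKS1⟩ := hS1
  obtain ⟨CK0, hCK0⟩ := hK.bound
  obtain ⟨CG, hCG0, hCG⟩ := hG
  set CK : ℝ := |CK0| + 1 with hCKd
  have hCK1 : 1 ≤ CK := by linarith [abs_nonneg CK0]
  have hC0 := C0_pos
  intro p d hp hd hd1
  have hp' : (1 : ℝ) ≤ p := by exact_mod_cast hp
  set C' : ℝ := (200 / cS) ^ 2 * (CK ^ p * (CG * 36)) ^ 2 * (Real.pi * C0) ^ 2 * (16 * p) ^ 2 * 2 with hC'
  obtain ⟨K, hKk⟩ := exists_K6 C'
  refine ⟨max K (max KS1 1), ?_⟩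
  intro k hk M Z hB
  have hkK : K ≤ k := (le_max_left _ _).trans hk
  have hkS : KS1 ≤ k := ((le_max_left _ _).trans (le_max_right _ _)).trans hk
  have hk1 : 1 ≤ k := ((le_max_right _ _).trans (le_max_right _ _)).trans hk
  have hk1' : (1 : ℝ) ≤ k := by exact_mod_cast hk1
  have hS := hKS1 k hkS
  have hSpos : 0 < S1 k := lt_of_lt_of_le (by positivity) hS
  set lam := lamk p d k with hlam
  have hl : 0 < lam := LF.lamk_pos hp d k
  have hl2 : lam ≤ 1/2 := LF.lamk_le hp d hd k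
  set T : ℝ := 2 ^ (5 * k) with hTd
  have hT : 1 ≤ T := one_le_pow₀ (by norm_num)
  obtain ⟨hG1, -⟩ := hCG T M Z hT hB
  set L : ℝ := CG * (36 * (k : ℝ) ^ 2) with hLd
  have hL0 : 0 ≤ L := by positivity
  have hlogT : (Real.log (T + 2)) ^ 2 ≤ 36 * (k : ℝ) ^ 2 := by
    have h1 := LF.logT k hk1
    have h2 : 0 ≤ Real.log (T + 2) := Real.log_nonneg (by linarith)
    calc (Real.log (T + 2)) ^ 2 ≤ (6 * (k : ℝ)) ^ 2 := by gcongr
      _ = _ := by ring
  set B : ℝ := CK ^ p * L with hBd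
  have hB0 : 0 ≤ B := by positivity
  have hgb := gg_bound' hp (lam := lam) (T := T) (CK := CK) (L := L) (Z := Z) (by linarith) hL0
    (by
      intro s h0 h2
      refine (hCK0 lam hl (by linarith) s h0 h2).trans ?_
      apply div_le_div_of_nonneg_right _ (by positivity)
      linarith [le_abs_self CK0])
    (by
      intro s h0 h2 h3
      refine (hG1 s h0 h2 h3).trans ?_
      rw [hLd]
      gcongr)
  have hgm : Measurable (LF.gg p lam T Z) := LF.gg_meas hl hB.diff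
  have hint : ∀ v : ℝ, Integrable (fun t : ℝ => LF.gg p lam T Z t * Complex.exp (t * v * Complex.I)) := by
    intro v
    have hgi : Integrable (LF.gg p lam T Z) := by
      refine ((Helper52.QRH.lorentz_integrable hl).const_mul B).mono' hgm.aestronglyMeasurable
        (Filter.Eventually.of_forall fun t => ?_)
      refine (hgb t).trans (le_of_eq ?_)
      ring
    refine hgi.mul_bdd (c := 1) (Continuous.aestronglyMeasurable (by fun_prop)) ?_
    refine Filter.Eventually.of_forall fun t => ?_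
    have : (t * v * Complex.I : ℂ) = ((t * v : ℝ) : ℂ) * Complex.I := by push_cast; ring
    rw [this, Complex.norm_exp_ofReal_mul_I]
  set F := (Finset.range (2 ^ (k - ee d k))).filter (fun j =>
      1/100 * (2 : ℝ) ^ k * S1 k ≤ ‖∑ m ∈ PM k, line p lam T Z (uu d k j - Real.log m)‖) with hF
  have hFj : ∀ j ∈ F, j < 2 ^ (k - ee d k) := by
    intro j hj
    exact Finset.mem_range.1 (Finset.mem_filter.1 hj).1
  have hinj : Set.InjOn (uu d k) F := by
    intro a ha b hb hab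
    by_contra hne
    have := LF.uu_abs hp d hd k a b hne (hFj a ha) (hFj b hb)
    rw [hab, sub_self, abs_zero] at this
    linarith
  set V : Finset ℝ := (PM k).image (fun m : ℕ => -Real.log m) with hV
  have hVsep : ∀ u ∈ V, ∀ u' ∈ V, u ≠ u' → lam ≤ |u - u'| := by
    intro u hu u' hu' hne
    obtain ⟨a, ha, rfl⟩ := Finset.mem_image.1 hu
    obtain ⟨b, hb, rfl⟩ := Finset.mem_image.1 hu'
    have hab : a ≠ b := fun h => hne (by rw [h])
    rcases lt_or_gt_of_ne hab with h | h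
    · refine (PM_sep hp hd ha hb h).trans ?_
      refine le_trans (le_of_eq ?_) (le_abs_self _)
      ring
    · refine (PM_sep hp hd hb ha h).trans ?_
      rw [abs_sub_comm]
      refine le_trans (le_of_eq ?_) (le_abs_self _)
      ring
  have hRsep : ∀ u ∈ F.image (uu d k), ∀ u' ∈ F.image (uu d k), u ≠ u' → lam ≤ |u - u'| := by
    intro u hu u' hu' hne
    obtain ⟨a, ha, rfl⟩ := Finset.mem_image.1 hu
    obtain ⟨b, hb, rfl⟩ := Finset.mem_image.1 hu'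
    exact LF.uu_abs hp d hd k a b (fun h => hne (by rw [h])) (hFj a ha) (hFj b hb)
  have hdual := duality2 hl (LF.gg p lam T Z) hgm hB0 hgb V hVsep
    (fun v => ((Real.exp (0.605 * v) : ℝ) : ℂ)) (F.image (uu d k)) hRsep
  rw [Finset.sum_image hinj, Finset.card_image_of_injOn hinj] at hdual
  -- the sum of squares
  have hinjV : Set.InjOn (fun m : ℕ => -Real.log (m : ℝ)) (PM k : Set ℕ) := by
    intro a ha b hb hab
    have ha' := (mem_PM ha).2.2.pos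
    have hb' := (mem_PM hb).2.2.pos
    have h1 : Real.log (a : ℝ) = Real.log b := by
      have : -Real.log (a : ℝ) = -Real.log b := hab
      linarith
    have h2 := Real.log_injOn_pos (Set.mem_Ioi.2 (by exact_mod_cast ha' : (0 : ℝ) < a))
      (Set.mem_Ioi.2 (by exact_mod_cast hb' : (0 : ℝ) < b)) h1
    exact_mod_cast h2
  have hA : ∑ v ∈ V, ‖((Real.exp (0.605 * v) : ℝ) : ℂ)‖ ^ 2 ≤ 2 * (2 : ℝ) ^ (-(0.1039 : ℝ) * k) := by
    rw [hV, Finset.sum_image hinjV]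
    refine le_trans (le_of_eq ?_) (sum_sq_PM k)
    refine Finset.sum_congr rfl fun m hm => ?_
    have hm0 : (0 : ℝ) < m := by exact_mod_cast (mem_PM hm).2.2.pos
    rw [Complex.norm_real, Real.norm_of_nonneg (Real.exp_pos _).le, Real.rpow_def_of_pos hm0]
    congr 2
    ring
  -- lower bound for each term
  set E : ℝ := (2 : ℝ) ^ ((0.605 : ℝ) * k) with hE
  have hE0 : 0 < E := by positivity
  set v0 : ℝ := (2 : ℝ) ^ k * S1 k / (200 * E) with hv0
  have hv0p : 0 < v0 := by positivity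
  have hlow : ∀ j ∈ F, v0 ≤
      ‖∫ t : ℝ, LF.gg p lam T Z t * (∑ v ∈ V, ((Real.exp (0.605 * v) : ℝ) : ℂ) *
        Complex.exp (t * v * Complex.I)) * Complex.exp (t * (uu d k j) * Complex.I)‖ := by
    intro j hj
    have h1 := (Finset.mem_filter.1 hj).2
    rw [sum_line k p (by linarith) Z (uu d k j) hint, norm_mul, norm_mul, Complex.norm_exp] at h1
    have h1a : ‖(1 / (2 * (Real.pi : ℂ)))‖ ≤ 1 := by
      rw [norm_div, norm_one, norm_mul, Complex.norm_real, Real.norm_of_nonneg Real.pi_pos.le,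
        Complex.norm_ofNat, div_le_one (by positivity)]
      linarith [Real.pi_gt_three]
    have h2 : (((0.605 : ℝ) : ℂ) * (uu d k j : ℂ)).re = 0.605 * uu d k j := by
      rw [← Complex.ofReal_mul, Complex.ofReal_re]
    rw [h2] at h1
    have h3 := LF.exp_uu d hd k j (hFj j hj)
    set I0 : ℝ := ‖∫ t : ℝ, LF.gg p lam T Z t * (∑ v ∈ V, ((Real.exp (0.605 * v) : ℝ) : ℂ) *
        Complex.exp (t * v * Complex.I)) * Complex.exp (t * (uu d k j) * Complex.I)‖ with hI0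
    rw [hv0, div_le_iff₀ (by positivity)]
    have h4 : ‖(1 / (2 * (Real.pi : ℂ)))‖ * (Real.exp (0.605 * uu d k j) * I0) ≤ 1 * ((2 * E) * I0) := by
      apply mul_le_mul h1a _ (by positivity) (by norm_num)
      exact mul_le_mul_of_nonneg_right h3 (norm_nonneg _)
    nlinarith
  have hsum : (F.card : ℝ) * v0 ≤ ∑ j ∈ F,
      ‖∫ t : ℝ, LF.gg p lam T Z t * (∑ v ∈ V, ((Real.exp (0.605 * v) : ℝ) : ℂ) *
        Complex.exp (t * v * Complex.I)) * Complex.exp (t * (uu d k j) * Complex.I)‖ := by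
    rw [← nsmul_eq_mul]
    exact Finset.card_nsmul_le_sum _ _ _ hlow
  have hsq : ((F.card : ℝ) * v0) ^ 2 ≤ B ^ 2 * ((Real.pi / lam * C0) ^ 2 *
      (2 * (2 : ℝ) ^ (-(0.1039 : ℝ) * k)) * F.card) := by
    refine (pow_le_pow_left₀ (by positivity) hsum 2).trans (hdual.trans ?_)
    gcongr
  rcases Nat.eq_zero_or_pos F.card with h0 | hpos
  · rw [h0]
    simp only [Nat.cast_zero]
    positivity
  have hFc : (0 : ℝ) < F.card := by exact_mod_cast hpos
  have h5 : (F.card : ℝ) * v0 ^ 2 ≤ B ^ 2 * ((Real.pi / lam * C0) ^ 2 *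
      (2 * (2 : ℝ) ^ (-(0.1039 : ℝ) * k))) := by
    have : F.card * ((F.card : ℝ) * v0 ^ 2) ≤ F.card * (B ^ 2 * ((Real.pi / lam * C0) ^ 2 *
      (2 * (2 : ℝ) ^ (-(0.1039 : ℝ) * k)))) := by
      calc F.card * ((F.card : ℝ) * v0 ^ 2) = ((F.card : ℝ) * v0) ^ 2 := by ring
        _ ≤ _ := hsq
        _ = _ := by ring
    exact le_of_mul_le_mul_left this hFc
  have h6 := LF.inv_lamk hp d k
  have hXk : (2 : ℝ) ^ k = (2 : ℝ) ^ (k : ℝ) := (Real.rpow_natCast _ _).symm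
  have h7 : (Real.pi / lam * C0) ^ 2 ≤ (Real.pi * C0) ^ 2 * ((16 * p) ^ 2 * (2 : ℝ) ^ ((1 + 2 * d) * k)) := by
    have e : Real.pi / lam * C0 = (Real.pi * C0) * (1 / lam) := by ring
    rw [e, mul_pow]
    have h8 : (1 / lam) ^ 2 ≤ (16 * p) ^ 2 * (2 : ℝ) ^ ((1 + 2 * d) * k) := by
      calc (1 / lam) ^ 2 ≤ (16 * p * (2 : ℝ) ^ ((1/2 + d) * k)) ^ 2 :=
            pow_le_pow_left₀ (by positivity) h6 2
        _ = (16 * p) ^ 2 * (2 : ℝ) ^ ((1 + 2 * d) * k) := by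
            rw [mul_pow, ← Real.rpow_natCast ((2 : ℝ) ^ ((1/2 + d) * k)), ← Real.rpow_mul (by norm_num)]
            congr 2
            push_cast
            ring
    exact mul_le_mul_of_nonneg_left h8 (by positivity)
  have h9 : (cS / 200) ^ 2 * ((2 : ℝ) ^ ((0.79 : ℝ) * k) / (k : ℝ) ^ 2) ≤ v0 ^ 2 := by
    have h10 : cS / 200 * ((2 : ℝ) ^ ((0.395 : ℝ) * k) / k) ≤ v0 := by
      rw [hv0, hE, hXk]
      have e : (2 : ℝ) ^ (k : ℝ) = (2 : ℝ) ^ ((0.395 : ℝ) * k) * (2 : ℝ) ^ ((0.605 : ℝ) * k) := by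
        rw [← Real.rpow_add (by norm_num)]
        congr 1
        ring
      rw [e]
      have e2 : (2 : ℝ) ^ ((0.395 : ℝ) * k) * (2 : ℝ) ^ ((0.605 : ℝ) * k) * S1 k /
          (200 * (2 : ℝ) ^ ((0.605 : ℝ) * k)) = (2 : ℝ) ^ ((0.395 : ℝ) * k) / 200 * S1 k := by
        field_simp
      rw [e2]
      calc cS / 200 * ((2 : ℝ) ^ ((0.395 : ℝ) * k) / k) = (2 : ℝ) ^ ((0.395 : ℝ) * k) / 200 * (cS / k) := by ring
        _ ≤ _ := by gcongr
    have e79 : (2 : ℝ) ^ ((0.79 : ℝ) * k) = ((2 : ℝ) ^ ((0.395 : ℝ) * k)) ^ 2 := by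
      rw [← Real.rpow_natCast ((2 : ℝ) ^ ((0.395 : ℝ) * k)), ← Real.rpow_mul (by norm_num)]
      congr 1
      push_cast
      ring
    calc (cS / 200) ^ 2 * ((2 : ℝ) ^ ((0.79 : ℝ) * k) / (k : ℝ) ^ 2) =
        (cS / 200 * ((2 : ℝ) ^ ((0.395 : ℝ) * k) / k)) ^ 2 := by
          rw [e79]; ring
      _ ≤ v0 ^ 2 := pow_le_pow_left₀ (by positivity) h10 2
  have h11 : (F.card : ℝ) * ((cS / 200) ^ 2 * ((2 : ℝ) ^ ((0.79 : ℝ) * k) / (k : ℝ) ^ 2)) ≤
      B ^ 2 * ((Real.pi * C0) ^ 2 * ((16 * p) ^ 2 * (2 : ℝ) ^ ((1 + 2 * d) * k)) *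
      (2 * (2 : ℝ) ^ (-(0.1039 : ℝ) * k))) := by
    refine (mul_le_mul_of_nonneg_left h9 hFc.le).trans (h5.trans ?_)
    gcongr
  have h12 : (F.card : ℝ) ≤ C' * (k : ℝ) ^ 6 * (2 : ℝ) ^ ((0.1061 + 2 * d) * k) := by
    have hpos2 : 0 < (cS / 200) ^ 2 * ((2 : ℝ) ^ ((0.79 : ℝ) * k) / (k : ℝ) ^ 2) := by positivity
    rw [← le_div_iff₀ hpos2] at h11
    refine h11.trans (le_of_eq ?_)
    have e3 : (2 : ℝ) ^ ((1 + 2 * d) * k) * (2 : ℝ) ^ (-(0.1039 : ℝ) * k) =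
        (2 : ℝ) ^ ((0.1061 + 2 * d) * k) * (2 : ℝ) ^ ((0.79 : ℝ) * k) := by
      rw [← Real.rpow_add (by norm_num), ← Real.rpow_add (by norm_num)]
      congr 1
      ring
    rw [div_eq_iff hpos2.ne']
    have hk0 : (k : ℝ) ≠ 0 := by positivity
    calc B ^ 2 * ((Real.pi * C0) ^ 2 * ((16 * p) ^ 2 * (2 : ℝ) ^ ((1 + 2 * d) * k)) *
      (2 * (2 : ℝ) ^ (-(0.1039 : ℝ) * k))) = B ^ 2 * ((Real.pi * C0) ^ 2 * (16 * p) ^ 2 * 2) *
        ((2 : ℝ) ^ ((1 + 2 * d) * k) * (2 : ℝ) ^ (-(0.1039 : ℝ) * k)) := by ring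
      _ = B ^ 2 * ((Real.pi * C0) ^ 2 * (16 * p) ^ 2 * 2) * ((2 : ℝ) ^ ((0.1061 + 2 * d) * k) *
        (2 : ℝ) ^ ((0.79 : ℝ) * k)) := by rw [e3]
      _ = _ := by
        rw [hC', hBd, hLd]
        field_simp
  refine h12.trans ?_
  calc C' * (k : ℝ) ^ 6 * (2 : ℝ) ^ ((0.1061 + 2 * d) * k) ≤
      (2 : ℝ) ^ ((0.01 : ℝ) * k) * (2 : ℝ) ^ ((0.1061 + 2 * d) * k) := by
        gcongr
        exact hKk k hkK
    _ = (2 : ℝ) ^ ((0.1161 + 2 * d) * k) := by
        rw [← Real.rpow_add (by norm_num)]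
        congr 1
        ring
    _ ≤ (2 : ℝ) ^ ((0.12 + 5 * d) * k) := by
        apply Real.rpow_le_rpow_of_exponent_le (by norm_num)
        apply mul_le_mul_of_nonneg_right _ (by positivity)
        linarith

end Pool.Agent.Helper60.KE
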