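import Pool.Agent.Helper60.KC.Main
import Pool.Agent.Helper60.KE.Line
import Pool.Agent.Helper60.KS.StE2

/-! CountE2: assembly of the counting theorem with the factor `P(ρ)`. -/

set_option autoImplicit false
set_option maxHeartbeats 4000000
open Filter Topology
open scoped Classical

namespace Pool.Agent.Helper60.KE
open Pool.Agent.Helper60.KS Pool.Agent.Helper60.KC

/-- parameters -/
structure ParE (ε0 δ d : ℝ) : Prop where
  h1 : 0 < ε0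
  h2 : ε0 ≤ 1/100
  h3 : δ = ε0 / 10 ^ 8
  h4 : 0 < d
  h5 : d ≤ δ

lemma ParE.dpos {ε0 δ d : ℝ} (h : ParE ε0 δ d) : 0 < δ := by
  rw [h.h3]; have := h.h1; positivity

lemma ParE.dsmall {ε0 δ d : ℝ} (h : ParE ε0 δ d) : δ ≤ 1 / 10 ^ 10 := by
  have h2 := h.h2; have h3 := h.h3
  rw [h3]; linarith

/-- one class -/
structure ClsE (ε0 δ d X x V : ℝ) (P : ℂ → ℂ) (Z : Finset ℂ) (c : ℂ → ℂ) (g : ℕ → ℂ) (N : ℕ) (U : Finset ℝ) :
    Prop where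
  hx0 : ε0 ≤ x
  hx1 : x ≤ 0.4 + δ
  hV : X ^ (-1 : ℝ) ≤ V
  hs : InStrip Z (1 - x) (1 - x + δ) (X ^ (1/2 + 2 * d) + 1)
  hsp : Spaced1 Z
  hg : ∀ n, ‖g n‖ ≤ (n.divisors.card : ℝ)
  hN0 : X ^ δ / 2 ≤ N
  hN1 : (N : ℝ) ≤ X ^ (yy x / 2 + 45 * δ)
  hD : ∀ ρ ∈ Z, 1 / (16 * Real.log X) ≤ ‖DP g N 2 ρ‖
  hP : ∀ ρ ∈ Z, V ≤ ‖P ρ‖ ∧ ‖P ρ‖ ≤ 2 * V
  hc : ∀ ρ ∈ Z, ‖c ρ‖ ≤ Real.log X ^ 2
  hU : ∀ u ∈ U, Real.log X ≤ u ∧ u ≤ Real.log X + 1
  hUs : SpacedR U (1 / X ^ (1/2 + 2 * d))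
  hS : ∀ u ∈ U, 1 / Real.log X ^ 6 ≤ ‖∑ ρ ∈ Z, c ρ * P ρ * Complex.exp ((ρ - 1) * (u : ℂ))‖

lemma term_leE {X u S : ℝ} {P : ℂ → ℂ} {ρ c : ℂ} (hX : 1 < X) (hz : riemannZeta ρ = 0) (hc : ‖c‖ ≤ 2)
    (hu : Real.log X ≤ u) (hP : ‖P ρ‖ ≤ S * X ^ (0.497 * (1 - ρ.re))) :
    ‖(mz ρ : ℂ) * c * P ρ * Complex.exp ((ρ - 1) * (u : ℂ))‖ ≤
      2 * S * ((mz ρ : ℝ) * X ^ (0.503 * (ρ.re - 1))) := by
  have h1 := zero_re_lt hz
  have hl : 0 < Real.log X := Real.log_pos hX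
  have hX0 : 0 < X := by linarith
  rw [norm_mul, norm_mul, norm_mul, Complex.norm_exp, Complex.norm_natCast]
  have e : ((ρ - 1) * (u:ℂ)).re = (ρ.re - 1) * u := by
    simp [Complex.mul_re]
  have e2 : Real.exp ((ρ - 1) * (u:ℂ)).re ≤ X ^ (ρ.re - 1) := by
    rw [e, Real.rpow_def_of_pos (by linarith)]
    apply Real.exp_le_exp.mpr
    nlinarith
  have e3 : X ^ (0.497 * (1 - ρ.re)) * X ^ (ρ.re - 1) = X ^ (0.503 * (ρ.re - 1)) := by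
    rw [← Real.rpow_add hX0]; congr 1; ring
  have hS0 : 0 ≤ S * X ^ (0.497 * (1 - ρ.re)) := (norm_nonneg _).trans hP
  calc (mz ρ : ℝ) * ‖c‖ * ‖P ρ‖ * Real.exp ((ρ - 1) * (u:ℂ)).re ≤
        (mz ρ : ℝ) * 2 * (S * X ^ (0.497 * (1 - ρ.re))) * X ^ (ρ.re - 1) := by
        apply mul_le_mul _ e2 (Real.exp_pos _).le (by positivity)
        apply mul_le_mul _ hP (norm_nonneg _) (by positivity)
        exact mul_le_mul_of_nonneg_left hc (by positivity)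
    _ = 2 * S * ((mz ρ : ℝ) * (X ^ (0.497 * (1 - ρ.re)) * X ^ (ρ.re - 1))) := by ring
    _ = _ := by rw [e3]

/-- everything that holds at one large `X` -/
lemma main_countE {C ε0 δ d X S : ℝ} (P : ℂ → ℂ) (hp : ParE ε0 δ d) (hC : 0 < C) (hX8 : 8 ≤ X)
    (hl : 10 ≤ Real.log X)
    (hSl : 80 / Real.log X ^ 2 ≤ S) (hS1 : S ≤ 1)
    (hPb : ∀ ρ : ℂ, 0 ≤ ρ.re → ρ.re ≤ 1 → ‖P ρ‖ ≤ S * X ^ (0.497 * (1 - ρ.re)))
    (hA : ∀ (t : ℝ) (F : Finset ℂ), (∀ ρ ∈ F, riemannZeta ρ = 0 ∧ 1/2 ≤ ρ.re ∧ |ρ.im - t| ≤ 1) →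
      ∑ ρ ∈ F, (mz ρ : ℝ) ≤ C * Real.log (|t| + 2))
    (hN : ∀ F : Finset ℂ, (∀ ρ ∈ F, riemannZeta ρ = 0 ∧ 1 - ε0 ≤ ρ.re ∧ |ρ.im| ≤ X ^ (0.6 : ℝ)) →
      ∑ ρ ∈ F, (mz ρ : ℝ) * X ^ (0.503 * (ρ.re - 1)) ≤ 1/16)
    (hD : ∀ x : ℝ, 0 < x → x ≤ 0.4 + δ → ∃ g : ℕ → ℂ, (∀ n, ‖g n‖ ≤ (n.divisors.card : ℝ)) ∧
      ∀ ρ : ℂ, riemannZeta ρ = 0 → 1 - x ≤ ρ.re → Real.log X ^ 2 ≤ |ρ.im| → |ρ.im| ≤ X ^ (1/2 + 2 * d) + 1 →
      ∃ i : ℕ, X ^ δ / 2 ≤ (2 : ℝ) ^ i ∧ (2 : ℝ) ^ i ≤ X ^ (yy x / 2 + 45 * δ) ∧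
        1 / (16 * Real.log X) ≤ ‖DP g (2 ^ i) 2 ρ‖)
    (hK : ∀ (x V : ℝ) (Z : Finset ℂ) (c : ℂ → ℂ) (g : ℕ → ℂ) (N : ℕ) (U : Finset ℝ),
      ClsE ε0 δ d X x V P Z c g N U → (U.card : ℝ) ≤ X ^ (0.171 : ℝ))
    (hS : SplitSpaced)
    (hx1 : X ^ (1/2 + 2 * d) + 4 ≤ X) (hx2 : X ^ (1/2 + 2 * d) + 1 ≤ X ^ (0.6 : ℝ))
    (hx3 : 240 * C * Real.log X ^ 4 ≤ X ^ (0.503 * ε0))
    (hx4 : 20 * (1 / δ + 2) * (C + 1) ≤ Real.log X)
    (hx5 : 2 * (C * Real.log X) ≤ Real.log X ^ 2)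
    (hx6 : 10 * C * Real.log X ^ 3 ≤ X ^ (0.4 : ℝ))
    (F : Finset ℂ) (c : ℂ → ℂ) (u : ℕ → ℝ) (J : ℕ)
    (hF : ∀ ρ ∈ F, riemannZeta ρ = 0 ∧ 0.6 < ρ.re ∧ |ρ.im| ≤ X ^ (1/2 + 2 * d) + 1)
    (hc : ∀ ρ ∈ F, ‖c ρ‖ ≤ 2)
    (hu : ∀ j < J, Real.log X ≤ u j ∧ u j ≤ Real.log X + 1)
    (hus : ∀ j < J, ∀ j' < J, j ≠ j' → 1 / X ^ (1/2 + 2 * d) ≤ |u j - u j'|) :
    (((Finset.range J).filter (fun j => 1/2 * S ≤ ‖∑ ρ ∈ F, (mz ρ : ℂ) * c ρ * P ρ *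
      Complex.exp ((ρ - 1) * (u j : ℂ))‖)).card : ℝ) ≤ Real.log X ^ 4 * X ^ (0.171 : ℝ) := by
  have hδ := hp.dpos
  have hδ' := hp.dsmall
  have hX0 : 1 < X := by linarith
  set l := Real.log X with hldef
  have hl0 : 0 < l := by linarith
  have hXp : 0 < X := by linarith
  have hS0 : 0 < S := lt_of_lt_of_le (by positivity) hSl
  -- the parts
  set P1 : ℂ → Prop := fun ρ => 1 - ε0 ≤ ρ.re with hP1
  set P2 : ℂ → Prop := fun ρ => |ρ.im| < l ^ 2 with hP2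
  set P3 : ℂ → Prop := fun ρ => ‖P ρ‖ < X ^ (-1 : ℝ) with hP3
  set F1 := F.filter P1 with hF1
  set F2 := (F.filter (fun ρ => ¬ P1 ρ)).filter P2 with hF2
  set F3b := (F.filter (fun ρ => ¬ P1 ρ)).filter (fun ρ => ¬ P2 ρ) with hF3b
  set F4 := F3b.filter P3 with hF4
  set F3a := F3b.filter (fun ρ => ¬ P3 ρ) with hF3a
  set F3 := F3a.filter (fun ρ => mz ρ ≠ 0) with hF3
  set f : ℝ → ℂ → ℂ := fun v ρ => (mz ρ : ℂ) * c ρ * P ρ * Complex.exp ((ρ - 1) * (v : ℂ)) with hf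
  have hsplit : ∀ v : ℝ, ∑ ρ ∈ F, f v ρ = ∑ ρ ∈ F1, f v ρ + (∑ ρ ∈ F2, f v ρ + (∑ ρ ∈ F4, f v ρ + ∑ ρ ∈ F3, f v ρ)) := by
    intro v
    have e3 : ∑ ρ ∈ F3a, f v ρ = ∑ ρ ∈ F3, f v ρ := by
      symm
      rw [hF3]
      apply Finset.sum_filter_of_ne
      intro ρ hρ h hm
      apply h
      simp [hf, hm]
    rw [← e3, hF4, hF3a, Finset.sum_filter_add_sum_filter_not, hF2, hF3b,
      Finset.sum_filter_add_sum_filter_not, hF1, Finset.sum_filter_add_sum_filter_not]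
  have hpart1 : ∀ v : ℝ, l ≤ v → ‖∑ ρ ∈ F1, f v ρ‖ ≤ 1/8 * S := by
    intro v hv
    refine le_trans (norm_sum_le _ _) ?_
    have h1 : ∀ ρ ∈ F1, ‖f v ρ‖ ≤ 2 * S * ((mz ρ : ℝ) * X ^ (0.503 * (ρ.re - 1))) := by
      intro ρ hρ
      rw [hF1, Finset.mem_filter] at hρ
      have hz := (hF ρ hρ.1).1
      have hr := (hF ρ hρ.1).2.1
      exact term_leE hX0 hz (hc ρ hρ.1) hv (hPb ρ (by linarith) (zero_re_lt hz).le)
    refine le_trans (Finset.sum_le_sum h1) ?_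
    rw [← Finset.mul_sum]
    have h2 := hN F1 (by
      intro ρ hρ
      rw [hF1, Finset.mem_filter] at hρ
      exact ⟨(hF ρ hρ.1).1, hρ.2, le_trans (hF ρ hρ.1).2.2 hx2⟩)
    nlinarith
  have hpart2 : ∀ v : ℝ, l ≤ v → ‖∑ ρ ∈ F2, f v ρ‖ ≤ 1/8 * S := by
    intro v hv
    refine le_trans (norm_sum_le _ _) ?_
    have h1 : ∀ ρ ∈ F2, ‖f v ρ‖ ≤ 2 * S * X ^ (-(0.503 * ε0)) * (mz ρ : ℝ) := by
      intro ρ hρ
      rw [hF2, Finset.mem_filter, Finset.mem_filter] at hρ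
      have hz := (hF ρ hρ.1.1).1
      have hr := (hF ρ hρ.1.1).2.1
      refine le_trans (term_leE hX0 hz (hc ρ hρ.1.1) hv (hPb ρ (by linarith) (zero_re_lt hz).le)) ?_
      have h3 : ρ.re < 1 - ε0 := not_le.mp hρ.1.2
      have h4 : X ^ (0.503 * (ρ.re - 1)) ≤ X ^ (-(0.503 * ε0)) :=
        Real.rpow_le_rpow_of_exponent_le hX0.le (by linarith)
      have h5 : (0:ℝ) ≤ mz ρ := Nat.cast_nonneg _
      calc 2 * S * ((mz ρ : ℝ) * X ^ (0.503 * (ρ.re - 1))) ≤ 2 * S * ((mz ρ : ℝ) * X ^ (-(0.503 * ε0))) := by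
            gcongr
        _ = _ := by ring
    refine le_trans (Finset.sum_le_sum h1) ?_
    rw [← Finset.mul_sum]
    have h2 := low_zeros hC hA ⌈l ^ 2⌉₊ F2 (by
      intro ρ hρ
      rw [hF2, Finset.mem_filter, Finset.mem_filter] at hρ
      have h3 : |ρ.im| < l ^ 2 := hρ.2
      refine ⟨(hF ρ hρ.1.1).1, by linarith [(hF ρ hρ.1.1).2.1], ?_⟩
      exact le_trans h3.le (Nat.le_ceil _))
    have hM : (⌈l ^ 2⌉₊ : ℝ) < l ^ 2 + 1 := Nat.ceil_lt_add_one (by positivity)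
    set M := (⌈l ^ 2⌉₊ : ℝ) with hMdef
    have hM0 : 0 ≤ M := Nat.cast_nonneg _
    have hlog : Real.log (M + 2) ≤ M + 1 := by
      have := Real.log_le_sub_one_of_pos (show 0 < M + 2 by linarith); linarith
    have hl2 : 100 ≤ l ^ 2 := by nlinarith
    have h6 : (2 * M + 1) * (C * Real.log (M + 2)) ≤ (5 * l ^ 2) * (C * (3 * l ^ 2)) := by
      apply mul_le_mul (by linarith) _ _ (by positivity)
      · apply mul_le_mul_of_nonneg_left (by linarith) hC.le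
      · have : 0 ≤ Real.log (M + 2) := Real.log_nonneg (by linarith)
        positivity
    have h7 : X ^ (-(0.503 * ε0)) * X ^ (0.503 * ε0) = 1 := by
      rw [← Real.rpow_add hXp]; simp
    have h8 : 0 < X ^ (-(0.503 * ε0)) := Real.rpow_pos_of_pos hXp _
    calc 2 * S * X ^ (-(0.503 * ε0)) * ∑ ρ ∈ F2, (mz ρ : ℝ) ≤
          2 * S * X ^ (-(0.503 * ε0)) * ((5 * l ^ 2) * (C * (3 * l ^ 2))) := by
          apply mul_le_mul_of_nonneg_left (le_trans h2 h6) (by positivity)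
      _ = 1/8 * S * (X ^ (-(0.503 * ε0)) * (240 * C * l ^ 4)) := by ring
      _ ≤ 1/8 * S * (X ^ (-(0.503 * ε0)) * X ^ (0.503 * ε0)) := by
          apply mul_le_mul_of_nonneg_left _ (by positivity)
          exact mul_le_mul_of_nonneg_left hx3 h8.le
      _ = 1/8 * S := by rw [h7]; ring
  have hpart4 : ∀ v : ℝ, l ≤ v → ‖∑ ρ ∈ F4, f v ρ‖ ≤ 1/80 * S := by
    intro v hv
    refine le_trans (norm_sum_le _ _) ?_
    have h1 : ∀ ρ ∈ F4, ‖f v ρ‖ ≤ 2 * X ^ (-1 : ℝ) * (mz ρ : ℝ) := by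
      intro ρ hρ
      rw [hF4, Finset.mem_filter, hF3b, Finset.mem_filter, Finset.mem_filter] at hρ
      obtain ⟨⟨⟨h1, h2⟩, h3⟩, h4⟩ := hρ
      have hz := (hF ρ h1).1
      have h5 := zero_re_lt hz
      have h6 : ‖P ρ‖ < X ^ (-1 : ℝ) := h4
      have h7 : Real.exp ((ρ - 1) * (v:ℂ)).re ≤ 1 := by
        have e : ((ρ - 1) * (v:ℂ)).re = (ρ.re - 1) * v := by simp [Complex.mul_re]
        rw [e, Real.exp_le_one_iff]
        nlinarith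
      simp only [hf]
      rw [norm_mul, norm_mul, norm_mul, Complex.norm_exp, Complex.norm_natCast]
      calc (mz ρ : ℝ) * ‖c ρ‖ * ‖P ρ‖ * Real.exp ((ρ - 1) * (v:ℂ)).re ≤
            (mz ρ : ℝ) * 2 * X ^ (-1 : ℝ) * 1 := by
            apply mul_le_mul _ h7 (Real.exp_pos _).le (by positivity)
            apply mul_le_mul _ h6.le (norm_nonneg _) (by positivity)
            exact mul_le_mul_of_nonneg_left (hc ρ h1) (by positivity)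
        _ = _ := by ring
    refine le_trans (Finset.sum_le_sum h1) ?_
    rw [← Finset.mul_sum]
    have hcl : (⌈X ^ (1/2 + 2 * d) + 1⌉₊ : ℝ) < X ^ (1/2 + 2 * d) + 1 + 1 := Nat.ceil_lt_add_one (by positivity)
    have h2 := low_zeros hC hA ⌈X ^ (1/2 + 2 * d) + 1⌉₊ F4 (by
      intro ρ hρ
      rw [hF4, Finset.mem_filter, hF3b, Finset.mem_filter, Finset.mem_filter] at hρ
      obtain ⟨⟨⟨h1, h2⟩, h3⟩, h4⟩ := hρ
      refine ⟨(hF ρ h1).1, by linarith [(hF ρ h1).2.1], ?_⟩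
      exact le_trans (hF ρ h1).2.2 (Nat.le_ceil _))
    set M := (⌈X ^ (1/2 + 2 * d) + 1⌉₊ : ℝ) with hMdef
    have hM0 : 0 ≤ M := Nat.cast_nonneg _
    have hX6 : 1 ≤ X ^ (0.6 : ℝ) := Real.one_le_rpow hX0.le (by norm_num)
    have hlog : Real.log (M + 2) ≤ l := Real.log_le_log (by linarith) (by linarith)
    have h6 : (2 * M + 1) * (C * Real.log (M + 2)) ≤ (5 * X ^ (0.6 : ℝ)) * (C * l) := by
      apply mul_le_mul (by linarith) _ _ (by positivity)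
      · apply mul_le_mul_of_nonneg_left hlog hC.le
      · have : 0 ≤ Real.log (M + 2) := Real.log_nonneg (by linarith)
        positivity
    have h7 : X ^ (-1 : ℝ) * X ^ (0.6 : ℝ) * X ^ (0.4 : ℝ) = 1 := by
      rw [← Real.rpow_add hXp, ← Real.rpow_add hXp]; norm_num
    have h8 : 0 < X ^ (-1 : ℝ) * X ^ (0.6 : ℝ) := by positivity
    calc 2 * X ^ (-1 : ℝ) * ∑ ρ ∈ F4, (mz ρ : ℝ) ≤ 2 * X ^ (-1 : ℝ) * ((5 * X ^ (0.6 : ℝ)) * (C * l)) := by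
          apply mul_le_mul_of_nonneg_left (le_trans h2 h6) (by positivity)
      _ = (X ^ (-1 : ℝ) * X ^ (0.6 : ℝ)) * (10 * C * l ^ 3) / l ^ 2 := by field_simp; ring
      _ ≤ (X ^ (-1 : ℝ) * X ^ (0.6 : ℝ)) * X ^ (0.4 : ℝ) / l ^ 2 := by
          apply div_le_div_of_nonneg_right _ (by positivity)
          exact mul_le_mul_of_nonneg_left hx6 h8.le
      _ = 1/80 * (80 / l ^ 2) := by rw [h7]; ring
      _ ≤ 1/80 * S := by linarith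
  -- classes of F3
  have hF3' : ∀ ρ ∈ F3, riemannZeta ρ = 0 ∧ 0.6 < ρ.re ∧ ρ.re < 1 - ε0 ∧ l ^ 2 ≤ |ρ.im| ∧
      |ρ.im| ≤ X ^ (1/2 + 2 * d) + 1 ∧ 1 ≤ mz ρ ∧ ‖c ρ‖ ≤ 2 ∧ X ^ (-1 : ℝ) ≤ ‖P ρ‖ := by
    intro ρ hρ
    rw [hF3, Finset.mem_filter, hF3a, Finset.mem_filter, hF3b, Finset.mem_filter, Finset.mem_filter] at hρ
    obtain ⟨⟨⟨⟨h1, h2⟩, h3⟩, h5⟩, h4⟩ := hρ
    exact ⟨(hF ρ h1).1, (hF ρ h1).2.1, not_le.mp h2, not_lt.mp h3, (hF ρ h1).2.2, Nat.one_le_iff_ne_zero.mpr h4,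
      hc ρ h1, not_lt.mp h5⟩
  have hD' : ∀ x : ℝ, ∃ g : ℕ → ℂ, 0 < x → x ≤ 0.4 + δ → ((∀ n, ‖g n‖ ≤ (n.divisors.card : ℝ)) ∧
      ∀ ρ : ℂ, riemannZeta ρ = 0 → 1 - x ≤ ρ.re → l ^ 2 ≤ |ρ.im| → |ρ.im| ≤ X ^ (1/2 + 2 * d) + 1 →
      ∃ i : ℕ, X ^ δ / 2 ≤ (2 : ℝ) ^ i ∧ (2 : ℝ) ^ i ≤ X ^ (yy x / 2 + 45 * δ) ∧
        1 / (16 * l) ≤ ‖DP g (2 ^ i) 2 ρ‖) := by
    intro x
    by_cases h : 0 < x ∧ x ≤ 0.4 + δ
    · obtain ⟨g, hg⟩ := hD x h.1 h.2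
      exact ⟨g, fun _ _ => hg⟩
    · exact ⟨0, fun h1 h2 => absurd ⟨h1, h2⟩ h⟩
  choose G hG using hD'
  set a : ℂ → ℕ := fun ρ => ⌈(1 - ρ.re) / δ⌉₊ with ha
  have hax : ∀ ρ ∈ F3, 1 - ρ.re ≤ δ * a ρ ∧ δ * a ρ < 1 - ρ.re + δ := by
    intro ρ hρ
    obtain ⟨-, h2, h3, -⟩ := hF3' ρ hρ
    have h1 := hp.h1
    constructor
    · have := Nat.le_ceil ((1 - ρ.re) / δ)
      rw [div_le_iff₀ hδ] at this
      rw [mul_comm]; exact this
    · have := Nat.ceil_lt_add_one (show 0 ≤ (1 - ρ.re) / δ by apply div_nonneg (by linarith) hδ.le)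
      have h5 : δ * (a ρ : ℝ) < δ * ((1 - ρ.re) / δ + 1) := mul_lt_mul_of_pos_left this hδ
      have h6 : δ * ((1 - ρ.re) / δ + 1) = 1 - ρ.re + δ := by field_simp
      linarith
  have hex : ∀ ρ ∈ F3, ∃ i : ℕ, X ^ δ / 2 ≤ (2 : ℝ) ^ i ∧ (2 : ℝ) ^ i ≤ X ^ (yy (δ * a ρ) / 2 + 45 * δ) ∧
        1 / (16 * l) ≤ ‖DP (G (δ * a ρ)) (2 ^ i) 2 ρ‖ := by
    intro ρ hρ
    obtain ⟨h1, h2, h3, h4, h5, -⟩ := hF3' ρ hρ
    obtain ⟨h6, h7⟩ := hax ρ hρ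
    have h8 := hp.h1
    exact (hG (δ * a ρ) (by linarith) (by linarith)).2 ρ h1 (by linarith) h4 h5
  choose! iF hiF using hex
  -- the size of `P`
  set wF : ℂ → ℕ := fun ρ => Nat.log 2 ⌊‖P ρ‖ * X⌋₊ with hwF
  have hXm : X ^ (-1 : ℝ) * X = 1 := by
    rw [Real.rpow_neg_one]; field_simp
  have hw : ∀ ρ ∈ F3, (2:ℝ) ^ wF ρ / X ≤ ‖P ρ‖ ∧ ‖P ρ‖ ≤ 2 * ((2:ℝ) ^ wF ρ / X) := by
    intro ρ hρ
    have h1 := (hF3' ρ hρ).2.2.2.2.2.2.2
    have h2 : 1 ≤ ‖P ρ‖ * X := by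
      rw [← hXm]; exact mul_le_mul_of_nonneg_right h1 hXp.le
    have h3 : 1 ≤ ⌊‖P ρ‖ * X⌋₊ := Nat.le_floor (by exact_mod_cast h2)
    have h4 := Nat.pow_log_le_self 2 (x := ⌊‖P ρ‖ * X⌋₊) (by omega)
    have h5 := Nat.lt_pow_succ_log_self (b := 2) (by norm_num) ⌊‖P ρ‖ * X⌋₊
    have h6 := Nat.floor_le (show 0 ≤ ‖P ρ‖ * X by positivity)
    have h7 := Nat.lt_floor_add_one (‖P ρ‖ * X)
    constructor
    · rw [div_le_iff₀ hXp]
      have : ((2 ^ wF ρ : ℕ) : ℝ) ≤ (⌊‖P ρ‖ * X⌋₊ : ℝ) := by exact_mod_cast h4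
      push_cast at this
      linarith
    · have h8 : ⌊‖P ρ‖ * X⌋₊ + 1 ≤ 2 ^ (wF ρ + 1) := h5
      have h9 : ((⌊‖P ρ‖ * X⌋₊ + 1 : ℕ) : ℝ) ≤ ((2 ^ (wF ρ + 1) : ℕ) : ℝ) := by exact_mod_cast h8
      push_cast at h9
      rw [← mul_div_assoc, le_div_iff₀ hXp, mul_comm 2, ← pow_succ]
      linarith
  have hMM : ∀ t : ℝ, (F3.filter (fun ρ => |ρ.im - t| ≤ 1)).card ≤ ⌈C * l⌉₊ := by
    intro t
    rcases Finset.eq_empty_or_nonempty (F3.filter (fun ρ => |ρ.im - t| ≤ 1)) with he | ⟨ρ0, hρ0⟩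
    · rw [he]; simp
    have h1 := hA t (F3.filter (fun ρ => |ρ.im - t| ≤ 1)) (by
      intro ρ hρ
      rw [Finset.mem_filter] at hρ
      obtain ⟨h1, h2, -⟩ := hF3' ρ hρ.1
      exact ⟨h1, by linarith, hρ.2⟩)
    rw [Finset.mem_filter] at hρ0
    obtain ⟨-, -, -, -, h5, -⟩ := hF3' ρ0 hρ0.1
    have h6 : |t| ≤ |ρ0.im| + 1 := by
      have h7 : |t| ≤ |ρ0.im| + |ρ0.im - t| := by
        have := abs_sub_abs_le_abs_sub t ρ0.im
        rw [abs_sub_comm] at this; linarith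
      linarith [hρ0.2]
    have h8 : Real.log (|t| + 2) ≤ l := Real.log_le_log (by positivity) (by linarith)
    have h9 : ((F3.filter (fun ρ => |ρ.im - t| ≤ 1)).card : ℝ) ≤ ∑ ρ ∈ F3.filter (fun ρ => |ρ.im - t| ≤ 1), (mz ρ : ℝ) := by
      rw [← nsmul_one]
      apply Finset.card_nsmul_le_sum
      intro ρ hρ
      rw [Finset.mem_filter] at hρ
      exact_mod_cast (hF3' ρ hρ.1).2.2.2.2.2.1
    have h10 : ((F3.filter (fun ρ => |ρ.im - t| ≤ 1)).card : ℝ) ≤ ⌈C * l⌉₊ :=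
      le_trans h9 (le_trans h1 (le_trans (mul_le_mul_of_nonneg_left h8 hC.le) (Nat.le_ceil _)))
    exact_mod_cast h10
  obtain ⟨col, hcol1, hcol2⟩ := hS F3 ⌈C * l⌉₊ hMM
  set A0 := ⌈1 / δ⌉₊ + 1 with hA0
  set I0 := ⌈2 * l⌉₊ + 1 with hI0
  set M0 := ⌈C * l⌉₊ with hM0
  set W0 := ⌈4 * l⌉₊ + 1 with hW0
  set KK := Finset.range A0 ×ˢ (Finset.range I0 ×ˢ (Finset.range M0 ×ˢ Finset.range W0)) with hKK
  set φ : ℂ → ℕ × (ℕ × (ℕ × ℕ)) := fun ρ => (a ρ, (iF ρ, (col ρ, wF ρ))) with hφ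
  have hlog2 : (1/2 : ℝ) ≤ Real.log 2 := by have := Real.log_two_gt_d9; linarith
  have hmaps : ∀ ρ ∈ F3, φ ρ ∈ KK := by
    intro ρ hρ
    obtain ⟨h1, h2, h3, h4, h5, -⟩ := hF3' ρ hρ
    obtain ⟨h6, h7⟩ := hax ρ hρ
    obtain ⟨h8, h9, h10⟩ := hiF ρ hρ
    simp only [hφ, hKK, Finset.mem_product, Finset.mem_range]
    refine ⟨?_, ?_, hcol1 ρ hρ, ?_⟩
    · have : a ρ ≤ ⌈1 / δ⌉₊ := by
        apply Nat.ceil_mono
        apply div_le_div_of_nonneg_right (by linarith) hδ.le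
      omega
    · have e1 : yy (δ * a ρ) ≤ 0.92 := by
        unfold yy
        refine le_trans (min_le_right _ _) ?_
        rw [div_le_iff₀ (by linarith)]
        linarith
      have e2 : (2:ℝ) ^ iF ρ ≤ X := by
        calc (2:ℝ) ^ iF ρ ≤ X ^ (yy (δ * a ρ) / 2 + 45 * δ) := h9
          _ ≤ X ^ (1:ℝ) := Real.rpow_le_rpow_of_exponent_le hX0.le (by linarith)
          _ = X := Real.rpow_one _
      have e3 : (iF ρ : ℝ) * Real.log 2 ≤ l := by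
        rw [← Real.log_pow]; exact Real.log_le_log (by positivity) e2
      have e4 : (iF ρ : ℝ) ≤ 2 * l := by
        have h11 : (0:ℝ) ≤ iF ρ := Nat.cast_nonneg _
        nlinarith
      have e5 : (iF ρ : ℝ) ≤ ⌈2 * l⌉₊ := le_trans e4 (Nat.le_ceil _)
      have e6 : iF ρ ≤ ⌈2 * l⌉₊ := by exact_mod_cast e5
      omega
    · have e1 := (hw ρ hρ).1
      have e2 : ‖P ρ‖ ≤ X := by
        refine (hPb ρ (by linarith) (zero_re_lt h1).le).trans ?_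
        calc S * X ^ (0.497 * (1 - ρ.re)) ≤ 1 * X ^ (1 : ℝ) := by
              apply mul_le_mul hS1 _ (by positivity) (by norm_num)
              apply Real.rpow_le_rpow_of_exponent_le hX0.le
              linarith
          _ = X := by rw [one_mul, Real.rpow_one]
      rw [div_le_iff₀ hXp] at e1
      have e3 : (2:ℝ) ^ wF ρ ≤ X ^ 2 := by nlinarith
      have e4 : (wF ρ : ℝ) * Real.log 2 ≤ 2 * l := by
        have := Real.log_le_log (by positivity) e3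
        rw [Real.log_pow, Real.log_pow] at this
        push_cast at this
        exact this
      have e5 : (wF ρ : ℝ) ≤ 4 * l := by
        have h11 : (0:ℝ) ≤ wF ρ := Nat.cast_nonneg _
        nlinarith
      have e6 : (wF ρ : ℝ) ≤ ⌈4 * l⌉₊ := le_trans e5 (Nat.le_ceil _)
      have e7 : wF ρ ≤ ⌈4 * l⌉₊ := by exact_mod_cast e6
      omega
  have hKcard : (KK.card : ℝ) ≤ l ^ 4 := by
    rw [hKK, Finset.card_product, Finset.card_product, Finset.card_product, Finset.card_range,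
      Finset.card_range, Finset.card_range, Finset.card_range]
    push_cast
    have e1 : (A0 : ℝ) ≤ 1 / δ + 2 := by
      rw [hA0]; push_cast
      have := Nat.ceil_lt_add_one (show 0 ≤ 1 / δ by positivity); linarith
    have e2 : (I0 : ℝ) ≤ 4 * l := by
      rw [hI0]; push_cast
      have := Nat.ceil_lt_add_one (show 0 ≤ 2 * l by positivity); linarith
    have e3 : (M0 : ℝ) ≤ (C + 1) * l := by
      rw [hM0]
      have := Nat.ceil_lt_add_one (show 0 ≤ C * l by positivity); linarith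
    have e4 : (W0 : ℝ) ≤ 5 * l := by
      rw [hW0]; push_cast
      have := Nat.ceil_lt_add_one (show 0 ≤ 4 * l by positivity); linarith
    calc (A0 : ℝ) * (I0 * (M0 * W0)) ≤ (1 / δ + 2) * ((4 * l) * (((C + 1) * l) * (5 * l))) := by
          apply mul_le_mul e1 _ (by positivity) (by positivity)
          apply mul_le_mul e2 _ (by positivity) (by positivity)
          apply mul_le_mul e3 e4 (by positivity) (by positivity)
      _ = (20 * (1 / δ + 2) * (C + 1)) * l ^ 3 := by ring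
      _ ≤ l * l ^ 3 := by
          apply mul_le_mul_of_nonneg_right hx4 (by positivity)
      _ = l ^ 4 := by ring
  set SS : ℕ × (ℕ × (ℕ × ℕ)) → ℝ → ℂ := fun κ v => ∑ ρ ∈ F3 with φ ρ = κ, f v ρ with hSdef
  set BK : ℕ × (ℕ × (ℕ × ℕ)) → Finset ℕ :=
    fun κ => (Finset.range J).filter (fun j => 1 / l ^ 6 ≤ ‖SS κ (u j)‖) with hBK
  have hcover : (Finset.range J).filter (fun j => 1/2 * S ≤ ‖∑ ρ ∈ F, f (u j) ρ‖) ⊆ KK.biUnion BK := by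
    intro j hj
    rw [Finset.mem_filter, Finset.mem_range] at hj
    obtain ⟨hj1, hj2⟩ := hj
    obtain ⟨hu1, hu2⟩ := hu j hj1
    rw [Finset.mem_biUnion]
    by_contra hcon
    push Not at hcon
    have h1 : ∀ κ ∈ KK, ‖SS κ (u j)‖ ≤ 1 / l ^ 6 := by
      intro κ hκ
      have := hcon κ hκ
      rw [hBK, Finset.mem_filter, Finset.mem_range] at this
      push Not at this
      exact (this hj1).le
    have h2 : ‖∑ ρ ∈ F3, f (u j) ρ‖ ≤ l ^ 4 * (1 / l ^ 6) := by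
      rw [← Finset.sum_fiberwise_of_maps_to hmaps]
      refine le_trans (norm_sum_le _ _) ?_
      refine le_trans (Finset.sum_le_sum h1) ?_
      rw [Finset.sum_const, nsmul_eq_mul]
      exact mul_le_mul_of_nonneg_right hKcard (by positivity)
    have h3 : l ^ 4 * (1 / l ^ 6) = 1/80 * (80 / l ^ 2) := by field_simp
    rw [hsplit] at hj2
    have h5 := norm_add_le (∑ ρ ∈ F1, f (u j) ρ) (∑ ρ ∈ F2, f (u j) ρ + (∑ ρ ∈ F4, f (u j) ρ + ∑ ρ ∈ F3, f (u j) ρ))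
    have h6 := norm_add_le (∑ ρ ∈ F2, f (u j) ρ) (∑ ρ ∈ F4, f (u j) ρ + ∑ ρ ∈ F3, f (u j) ρ)
    have h6' := norm_add_le (∑ ρ ∈ F4, f (u j) ρ) (∑ ρ ∈ F3, f (u j) ρ)
    have h7 := hpart1 (u j) hu1
    have h8 := hpart2 (u j) hu1
    have h9 := hpart4 (u j) hu1
    rw [h3] at h2
    linarith
  have hBcard : ∀ κ ∈ KK, ((BK κ).card : ℝ) ≤ X ^ (0.171 : ℝ) := by
    intro κ hκ
    have hinj : Set.InjOn u (BK κ : Set ℕ) := by
      intro j hj j' hj' he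
      by_contra hne
      rw [Finset.mem_coe, hBK, Finset.mem_filter, Finset.mem_range] at hj hj'
      have := hus j hj.1 j' hj'.1 hne
      rw [he, sub_self, abs_zero] at this
      have h2 : 0 < 1 / X ^ (1/2 + 2 * d) := by positivity
      linarith
    have hcardU : ((BK κ).image u).card = (BK κ).card := Finset.card_image_of_injOn hinj
    rw [← hcardU]
    rcases Finset.eq_empty_or_nonempty (F3.filter (fun ρ => φ ρ = κ)) with he | ⟨ρ0, hρ0⟩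
    · have : BK κ = ∅ := by
        rw [hBK]
        apply Finset.filter_eq_empty_iff.mpr
        intro j hj
        rw [hSdef]
        simp only [he, Finset.sum_empty, norm_zero, not_le]
        positivity
      rw [this]; simp; positivity
    obtain ⟨ka, ki, kc, kw⟩ := κ
    have hρ0' := Finset.mem_filter.mp hρ0
    have hκeq : ∀ ρ ∈ F3.filter (fun ρ => φ ρ = (ka, (ki, (kc, kw)))),
        ρ ∈ F3 ∧ a ρ = ka ∧ iF ρ = ki ∧ col ρ = kc ∧ wF ρ = kw := by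
      intro ρ hρ
      have h1 := Finset.mem_filter.mp hρ
      have h2 := h1.2
      simp only [hφ, Prod.mk.injEq] at h2
      exact ⟨h1.1, h2.1, h2.2.1, h2.2.2.1, h2.2.2.2⟩
    obtain ⟨g1, g2, g3, g4, g5⟩ := hκeq ρ0 hρ0
    obtain ⟨b1, b2, b3, b4, b5, b6, b7, b7'⟩ := hF3' ρ0 g1
    obtain ⟨b8, b9⟩ := hax ρ0 g1
    obtain ⟨b10, b11, b12⟩ := hiF ρ0 g1
    rw [g2] at b8 b9 b11 b12
    rw [g3] at b10 b11 b12
    have hε0 := hp.h1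
    have hGx := (hG (δ * ka) (by linarith) (by linarith)).1
    apply hK (δ * ka) (2 ^ kw / X) (F3.filter (fun ρ => φ ρ = (ka, (ki, (kc, kw))))) (fun ρ => (mz ρ : ℂ) * c ρ)
      (G (δ * ka)) (2 ^ ki)
    refine ⟨by linarith, by linarith, ?_, ?_, ?_, hGx, by push_cast; exact b10, by push_cast; exact b11,
      ?_, ?_, ?_, ?_, ?_, ?_⟩
    · rw [Real.rpow_neg_one, ← one_div]
      apply div_le_div_of_nonneg_right _ hXp.le
      exact one_le_pow₀ (by norm_num)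
    · intro ρ hρ
      obtain ⟨e1, e2, e3, e4⟩ := hκeq ρ hρ
      obtain ⟨c1, c2⟩ := hax ρ e1
      rw [e2] at c1 c2
      exact ⟨by linarith, by linarith, (hF3' ρ e1).2.2.2.2.1⟩
    · intro ρ hρ ρ' hρ' hne
      obtain ⟨e1, e2, e3, e4, e5⟩ := hκeq ρ hρ
      obtain ⟨e1', e2', e3', e4', e5'⟩ := hκeq ρ' hρ'
      exact hcol2 kc ρ (Finset.mem_filter.mpr ⟨e1, e4⟩) ρ' (Finset.mem_filter.mpr ⟨e1', e4'⟩) hne
    · intro ρ hρ
      obtain ⟨e1, e2, e3, e4⟩ := hκeq ρ hρ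
      have := (hiF ρ e1).2.2
      rw [e2, e3] at this
      exact this
    · intro ρ hρ
      obtain ⟨e1, e2, e3, e4, e5⟩ := hκeq ρ hρ
      have := hw ρ e1
      rw [e5] at this
      exact this
    · intro ρ hρ
      obtain ⟨e1, e2, e3, e4⟩ := hκeq ρ hρ
      obtain ⟨d1, d2, d3, d4, d5, d6, d7, d8⟩ := hF3' ρ e1
      rw [norm_mul, Complex.norm_natCast]
      have h1 := hA ρ.im {ρ} (by
        intro ρ' hρ'
        rw [Finset.mem_singleton] at hρ'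
        subst hρ'
        exact ⟨d1, by linarith, by simp⟩)
      rw [Finset.sum_singleton] at h1
      have h2 : Real.log (|ρ.im| + 2) ≤ l := Real.log_le_log (by positivity) (by linarith)
      have h3 : (mz ρ : ℝ) ≤ C * l := le_trans h1 (mul_le_mul_of_nonneg_left h2 hC.le)
      calc (mz ρ : ℝ) * ‖c ρ‖ ≤ (C * l) * 2 := mul_le_mul h3 d7 (norm_nonneg _) (by positivity)
        _ ≤ l ^ 2 := by linarith
    · intro v hv
      obtain ⟨j, hj, rfl⟩ := Finset.mem_image.mp hv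
      rw [hBK, Finset.mem_filter, Finset.mem_range] at hj
      exact hu j hj.1
    · intro v hv v' hv' hne
      obtain ⟨j, hj, rfl⟩ := Finset.mem_image.mp hv
      obtain ⟨j', hj', rfl⟩ := Finset.mem_image.mp hv'
      rw [hBK, Finset.mem_filter, Finset.mem_range] at hj hj'
      exact hus j hj.1 j' hj'.1 (fun h => hne (by rw [h]))
    · intro v hv
      obtain ⟨j, hj, rfl⟩ := Finset.mem_image.mp hv
      rw [hBK, Finset.mem_filter, Finset.mem_range] at hj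
      exact hj.2
  have hfinal : (((Finset.range J).filter (fun j => 1/2 * S ≤ ‖∑ ρ ∈ F, f (u j) ρ‖)).card : ℝ) ≤
      ∑ κ ∈ KK, ((BK κ).card : ℝ) := by
    have h1 := le_trans (Finset.card_le_card hcover) Finset.card_biUnion_le
    exact_mod_cast h1
  calc (((Finset.range J).filter (fun j => 1/2 * S ≤ ‖∑ ρ ∈ F, f (u j) ρ‖)).card : ℝ) ≤
      ∑ κ ∈ KK, ((BK κ).card : ℝ) := hfinal
    _ ≤ ∑ κ ∈ KK, X ^ (0.171 : ℝ) := Finset.sum_le_sum hBcard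
    _ = KK.card * X ^ (0.171 : ℝ) := by rw [Finset.sum_const, nsmul_eq_mul]
    _ ≤ l ^ 4 * X ^ (0.171 : ℝ) := mul_le_mul_of_nonneg_right hKcard (by positivity)

end Pool.Agent.Helper60.KE
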