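import Pool.Agent.Helper60.KE.St
import Pool.Agent.Helper60.KE.Line
import Pool.Agent.Helper30.QRH.BadCells
import Pool.Agent.Helper18.KSZ.E10

/-! CountE2: the prime side. -/

set_option autoImplicit false
open Filter Topology Finset
open scoped ArithmeticFunction.vonMangoldt

namespace Pool.Agent.Helper60.KE

open Pool.Agent.Helper10.QRH Pool.Agent.Helper46.KSZ Pool.Agent.Helper30.QRH
open Pool.Agent.Helper60.KS (PM S1 nE2 S1Lower)

/-- the cofactors -/
noncomputable def cof (k y H m : ℕ) : Finset ℕ :=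
  (range (2 ^ (k + 1))).filter (fun n => y ≤ m * n ∧ m * n < y + H)

lemma ker_sum_le2 {p : ℕ} {lam X : ℝ} (hK : KerFacts) (hp : 1 ≤ p) (k y H m : ℕ) (hm : 0 < m) (hlam : 0 < lam)
    (hX : 0 < X) (hHX : p * lam * (4 * X) ≤ H) (hy : X ≤ y) (hy2 : (y : ℝ) + H ≤ 2 * X)
    (hyk : y + H ≤ 2 ^ (k + 1)) :
    ∑' n : ℕ, Λ n * ker lam (p - 1) (Real.log (y + H / 2) - Real.log m - Real.log n) ≤
      1 / lam * ∑ n ∈ cof k y H m, Λ n := by
  obtain ⟨_, hk0, hk1, hk2⟩ := hK lam hlam (p - 1)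
  have hp1 : (((p - 1 : ℕ) : ℝ) + 1) = p := by
    rw [Nat.cast_sub hp]; push_cast; ring
  rw [hp1] at hk2
  set l' : ℝ := p * lam with hl'
  have hl'0 : 0 < l' := by
    have : (0 : ℝ) < p := by exact_mod_cast hp
    positivity
  have hH : (0 : ℝ) < H := by
    refine lt_of_lt_of_le (by positivity) hHX
  have hy0 : (0 : ℝ) < y := by linarith
  have hm0 : (0 : ℝ) < m := by exact_mod_cast hm
  have hz : ∀ n ∉ cof k y H m, Λ n * ker lam (p - 1) (Real.log (y + H / 2) - Real.log m - Real.log n) = 0 := by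
    intro n hn
    rcases Nat.eq_zero_or_pos n with h0 | h0
    · subst h0
      simp
    have hn0 : (0 : ℝ) < n := by exact_mod_cast h0
    have hlog : Real.log (y + H / 2) - Real.log m - Real.log n = Real.log (y + H / 2) - Real.log ((m * n : ℕ) : ℝ) := by
      push_cast
      rw [Real.log_mul hm0.ne' hn0.ne']
      ring
    have hmn0 : (0 : ℝ) < ((m * n : ℕ) : ℝ) := by exact_mod_cast Nat.mul_pos hm h0
    rw [hlog]
    rw [hk2, mul_zero]
    have hn' : m * n < y ∨ y + H ≤ m * n := by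
      by_contra hcon
      push Not at hcon
      apply hn
      rw [cof, mem_filter, mem_range]
      refine ⟨?_, hcon⟩
      have h1 : n ≤ m * n := Nat.le_mul_of_pos_left n hm
      omega
    rcases hn' with hn' | hn'
    · have h1 : ((m * n : ℕ) : ℝ) ≤ y := by exact_mod_cast hn'.le
      have h2 := Real.log_le_log hmn0 h1
      have h3 := log_gap (a := (y : ℝ)) (b := y + H / 2) hy0 (by linarith)
      have h4 : l' ≤ ((y : ℝ) + H / 2 - y) / (y + H / 2) := by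
        rw [le_div_iff₀ (by positivity)]
        nlinarith
      rw [le_abs]
      left
      linarith
    · have h1 : (y : ℝ) + H ≤ ((m * n : ℕ) : ℝ) := by exact_mod_cast hn'
      have h2 := Real.log_le_log (by positivity) h1
      have h3 := log_gap (a := (y : ℝ) + H / 2) (b := y + H) (by positivity) (by linarith)
      have h4 : l' ≤ ((y : ℝ) + H - (y + H / 2)) / (y + H) := by
        rw [le_div_iff₀ (by positivity)]
        nlinarith
      rw [le_abs]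
      right
      linarith
  rw [tsum_eq_sum hz, mul_sum]
  apply sum_le_sum
  intro n _
  rw [mul_comm]
  exact mul_le_mul_of_nonneg_right (hk1 _) ArithmeticFunction.vonMangoldt_nonneg

/-- pairs with a prime power cofactor -/
lemma pow_pairs (k y H M r : ℕ) (hM : 1 ≤ M) (P : Finset ℕ) (hP : ∀ m ∈ P, M < m)
    (hH : ∀ n m : ℕ, m ∈ P → y ≤ m * n → H ≤ n) (hy2 : y + H ≤ 2 ^ (k + 1)) (hr : 2 ^ (k + 1) ≤ M * 2 ^ (2 * r)) :
    ((P ×ˢ range (2 ^ (k + 1))).filter (fun p => (IsPrimePow p.2 ∧ ¬ p.2.Prime) ∧ y ≤ p.1 * p.2 ∧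
      p.1 * p.2 < y + H)).card ≤ (2 ^ r + 1) * (k + 1) := by
  classical
  have hcard : ((range (2 ^ r + 1)) ×ˢ (range (k + 1))).card = (2 ^ r + 1) * (k + 1) := by simp
  rw [← hcard]
  -- facts on an element
  have key : ∀ q : ℕ × ℕ, q ∈ (P ×ˢ range (2 ^ (k + 1))).filter (fun p => (IsPrimePow p.2 ∧ ¬ p.2.Prime) ∧
      y ≤ p.1 * p.2 ∧ p.1 * p.2 < y + H) → ∃ s a : ℕ, s.Prime ∧ 2 ≤ a ∧ s ^ a = q.2 ∧ s ≤ 2 ^ r ∧ a < k + 1 := by
    intro q hq
    rw [mem_filter, mem_product, mem_range] at hq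
    obtain ⟨⟨h1, h2⟩, ⟨h3, h4⟩, h5, h6⟩ := hq
    rw [isPrimePow_nat_iff] at h3
    obtain ⟨s, a, hs, ha, hsa⟩ := h3
    have ha2 : 2 ≤ a := by
      rcases Nat.lt_or_ge a 2 with h | h
      · have : a = 1 := by omega
        subst this
        rw [pow_one] at hsa
        rw [← hsa] at h4
        exact absurd hs h4
      · exact h
    have hMq := hP _ h1
    have h7 : M * q.2 < M * 2 ^ (2 * r) := by
      have h8 : M * q.2 ≤ q.1 * q.2 := Nat.mul_le_mul_right _ hMq.le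
      omega
    have h8 : q.2 < 2 ^ (2 * r) := Nat.lt_of_mul_lt_mul_left h7
    refine ⟨s, a, hs, ha2, hsa, ?_, ?_⟩
    · by_contra hcon
      push Not at hcon
      have h9 : (2 ^ r) ^ 2 ≤ s ^ 2 := Nat.pow_le_pow_left hcon.le 2
      have h10 : s ^ 2 ≤ s ^ a := Nat.pow_le_pow_right hs.pos ha2
      have h11 : (2 ^ r) ^ 2 = 2 ^ (2 * r) := by rw [← pow_mul, mul_comm]
      omega
    · by_contra hcon
      push Not at hcon
      have h9 : 2 ^ (k + 1) ≤ s ^ a := (Nat.pow_le_pow_right (by norm_num) hcon).trans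
        (Nat.pow_le_pow_left hs.two_le a)
      omega
  choose! fs fa hfs using key
  apply card_le_card_of_injOn (fun q => (fs q, fa q))
  · intro q hq
    obtain ⟨h1, h2, h3, h4, h5⟩ := hfs q hq
    rw [mem_coe, mem_product, mem_range, mem_range]
    exact ⟨Nat.lt_succ_of_le h4, h5⟩
  · intro q hq q' hq' he
    simp only [Prod.mk.injEq] at he
    obtain ⟨h1, h2, h3, h4, h5⟩ := hfs q hq
    obtain ⟨h1', h2', h3', h4', h5'⟩ := hfs q' hq'
    have e2 : q.2 = q'.2 := by rw [← h3, ← h3', he.1, he.2]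
    rw [mem_coe, mem_filter, mem_product, mem_range] at hq hq'
    obtain ⟨⟨a1, a2⟩, ⟨a3, a4⟩, a5, a6⟩ := hq
    obtain ⟨⟨b1, b2⟩, ⟨b3, b4⟩, b5, b6⟩ := hq'
    have hHn := hH q.2 q.1 a1 a5
    have e1 : q.1 = q'.1 := by
      rw [← e2] at b5 b6
      rcases lt_trichotomy q.1 q'.1 with h | h | h
      · have h7 : (q.1 + 1) * q.2 ≤ q'.1 * q.2 := Nat.mul_le_mul_right _ h
        rw [add_mul, one_mul] at h7
        omega
      · exact h
      · have h7 : (q'.1 + 1) * q.2 ≤ q.1 * q.2 := Nat.mul_le_mul_right _ h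
        rw [add_mul, one_mul] at h7
        omega
    exact Prod.ext e1 e2

/-- the sum of `Λ` over all cofactors -/
lemma cof_sum (k y H M r : ℕ) (hM : 1 ≤ M) (P : Finset ℕ) (hP : ∀ m ∈ P, M < m)
    (hH : ∀ n m : ℕ, m ∈ P → y ≤ m * n → H ≤ n) (hy2 : y + H ≤ 2 ^ (k + 1)) (hr : 2 ^ (k + 1) ≤ M * 2 ^ (2 * r)) :
    ∑ m ∈ P, ∑ n ∈ cof k y H m, Λ n ≤ ((k + 1) * Real.log 2) *
      ((((P ×ˢ range (2 ^ (k + 1))).filter (fun p => p.2.Prime ∧ y ≤ p.1 * p.2 ∧ p.1 * p.2 < y + H)).card : ℝ) +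
        ((2:ℝ) ^ r + 1) * (k + 1)) := by
  classical
  have e1 : ∑ m ∈ P, ∑ n ∈ cof k y H m, Λ n = ∑ q ∈ (P ×ˢ range (2 ^ (k + 1))).filter
      (fun p => y ≤ p.1 * p.2 ∧ p.1 * p.2 < y + H), Λ q.2 := by
    rw [sum_filter, sum_product]
    refine sum_congr rfl fun m _ => ?_
    rw [cof, sum_filter]
  rw [e1]
  have h1 : ∀ q ∈ (P ×ˢ range (2 ^ (k + 1))).filter (fun p => y ≤ p.1 * p.2 ∧ p.1 * p.2 < y + H),
      Λ q.2 ≤ if IsPrimePow q.2 then ((k : ℝ) + 1) * Real.log 2 else 0 := by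
    intro q hq
    rw [mem_filter, mem_product, mem_range] at hq
    split_ifs with h
    · refine ArithmeticFunction.vonMangoldt_le_log.trans ?_
      have h2 : (q.2 : ℝ) ≤ 2 ^ (k + 1) := by exact_mod_cast hq.1.2.le
      have hn0 : (0 : ℝ) < q.2 := by exact_mod_cast h.pos
      refine (Real.log_le_log hn0 h2).trans (le_of_eq ?_)
      rw [Real.log_pow]
      push_cast
      ring
    · exact (ArithmeticFunction.vonMangoldt_eq_zero_iff.2 h).le
  refine (sum_le_sum h1).trans ?_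
  rw [← sum_filter, sum_const, nsmul_eq_mul, mul_comm]
  have hlog : 0 ≤ ((k : ℝ) + 1) * Real.log 2 := by positivity
  apply mul_le_mul_of_nonneg_left _ hlog
  have h3 : (((P ×ˢ range (2 ^ (k + 1))).filter (fun p => y ≤ p.1 * p.2 ∧ p.1 * p.2 < y + H)).filter
      (fun q => IsPrimePow q.2)).card ≤
      ((P ×ˢ range (2 ^ (k + 1))).filter (fun p => p.2.Prime ∧ y ≤ p.1 * p.2 ∧ p.1 * p.2 < y + H)).card +
      ((P ×ˢ range (2 ^ (k + 1))).filter (fun p => (IsPrimePow p.2 ∧ ¬ p.2.Prime) ∧ y ≤ p.1 * p.2 ∧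
      p.1 * p.2 < y + H)).card := by
    refine (card_le_card ?_).trans (card_union_le _ _)
    intro q hq
    rw [mem_filter, mem_filter] at hq
    rw [mem_union, mem_filter, mem_filter]
    by_cases hp : q.2.Prime
    · exact Or.inl ⟨hq.1.1, hp, hq.1.2⟩
    · exact Or.inr ⟨hq.1.1, ⟨hq.2, hp⟩, hq.1.2⟩
  have h4 := pow_pairs k y H M r hM P hP hH hy2 hr
  exact_mod_cast h3.trans (Nat.add_le_add_left h4 _)

lemma ev_pow {a b : ℝ} (hab : a < b) (A : ℝ) : ∃ K : ℕ, ∀ k : ℕ, K ≤ k →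
    A * (k : ℝ) ^ 4 * (2:ℝ) ^ (a * k) ≤ (2 : ℝ) ^ (b * k) := by
  have h1 : 1 < (2 : ℝ) ^ (b - a) := Real.one_lt_rpow (by norm_num) (by linarith)
  have h2 := (tendsto_pow_const_div_const_pow_of_one_lt 4 h1).const_mul A
  rw [mul_zero] at h2
  have h4 := h2.eventually (gt_mem_nhds (show (0 : ℝ) < 1 by norm_num))
  obtain ⟨K, hK⟩ := eventually_atTop.mp h4
  refine ⟨K, fun k hk => ?_⟩
  have h5 := (hK k hk).le
  have h6 : (0 : ℝ) < ((2 : ℝ) ^ (b - a)) ^ k := by positivity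
  rw [← mul_div_assoc, div_le_one h6] at h5
  have h7 : (2:ℝ) ^ (b * k) = ((2 : ℝ) ^ (b - a)) ^ k * (2:ℝ) ^ (a * k) := by
    rw [← Real.rpow_natCast, ← Real.rpow_mul (by norm_num), ← Real.rpow_add (by norm_num)]
    congr 1; ring
  rw [h7]
  exact mul_le_mul_of_nonneg_right h5 (by positivity)

/-- the prime side -/
theorem primeSideE2 (hS1 : S1Lower) (h8 : KerFacts) : PrimeSideE2 := by
  intro p d hp hd0 hd
  obtain ⟨cS, hcS, KS1, hKS1⟩ := hS1
  have hp' : (1 : ℝ) ≤ p := by exact_mod_cast hp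
  have hp0 : (0 : ℝ) < p := by linarith
  obtain ⟨K, hK⟩ := ev_pow (show (0.26:ℝ) < 0.48 by norm_num) (10000 * p / cS)
  refine ⟨cS / (200 * p), by positivity, max (max K KS1) 1000, fun k hk j hj hfew => ?_⟩
  have hkK : K ≤ k := (le_max_left _ _).trans ((le_max_left _ _).trans hk)
  have hkS : KS1 ≤ k := (le_max_right _ _).trans ((le_max_left _ _).trans hk)
  have hk1000 : 1000 ≤ k := (le_max_right _ _).trans hk
  have hkr : (1000 : ℝ) ≤ k := by exact_mod_cast hk1000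
  have hkr0 : (0 : ℝ) < k := by linarith
  have hbig := hK k hkK
  have hSk := hKS1 k hkS
  have hem := em_bounds k
  obtain ⟨-, -, he3⟩ := Pool.Agent.Helper18.KSZ.ee_large hd0 hd (by omega : 20 ≤ k)
  set e := ee d k with he
  have heR : (0.49 : ℝ) * k - 1 ≤ e ∧ (e : ℝ) ≤ 0.5 * k := by
    constructor
    · have h1 := Nat.lt_floor_add_one ((k : ℝ) * (1 / 2 - d))
      rw [he]; unfold ee
      nlinarith
    · have h1 := Nat.floor_le (show 0 ≤ (k : ℝ) * (1 / 2 - d) by nlinarith)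
      rw [he]; unfold ee
      nlinarith
  set X : ℝ := (2 : ℝ) ^ k with hX
  have hX0 : 0 < X := by positivity
  set y : ℕ := 2 ^ k + j * 2 ^ e with hy
  have hyH : y + 2 ^ e ≤ 2 ^ (k + 1) := by
    have h1 : (j + 1) * 2 ^ e ≤ 2 ^ (k - e) * 2 ^ e := Nat.mul_le_mul_right _ hj
    rw [← pow_add, Nat.sub_add_cancel he3] at h1
    rw [hy, pow_succ]
    nlinarith
  have hlamdef : lamk p d k = (2 : ℝ) ^ e / (8 * p * X) := rfl
  have hlam0 : 0 < lamk p d k := by rw [hlamdef]; positivity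
  have hu : uu d k j = Real.log ((y : ℝ) + ((2 ^ e : ℕ) : ℝ) / 2) := by
    unfold uu
    rw [hy, he]
    push_cast
    ring_nf
  have hHX1 : (p : ℝ) * lamk p d k * (4 * X) ≤ ((2 ^ e : ℕ) : ℝ) := by
    rw [hlamdef]
    push_cast
    have : (p : ℝ) * (2 ^ e / (8 * p * X)) * (4 * X) = 2 ^ e / 2 := by
      field_simp; ring
    rw [this]
    have : (0 : ℝ) < 2 ^ e := by positivity
    linarith
  have hyX : X ≤ y := by
    rw [hy, hX]; push_cast; have : (0 : ℝ) ≤ (j : ℝ) * 2 ^ e := by positivity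
    linarith
  have hyX2 : (y : ℝ) + ((2 ^ e : ℕ) : ℝ) ≤ 2 * X := by
    rw [hX]; have : ((y + 2 ^ e : ℕ) : ℝ) ≤ ((2 ^ (k + 1) : ℕ) : ℝ) := by exact_mod_cast hyH
    push_cast at this ⊢
    rw [pow_succ] at this
    linarith
  have h1 : ∑ m ∈ PM k, (∑' n : ℕ, ArithmeticFunction.vonMangoldt n *
      ker (lamk p d k) (p - 1) (uu d k j - Real.log m - Real.log n)) ≤
      ∑ m ∈ PM k, 1 / lamk p d k * ∑ n ∈ cof k y (2 ^ e) m, Λ n := by
    apply sum_le_sum
    intro m hm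
    rw [hu]
    exact ker_sum_le2 h8 hp k y (2 ^ e) m (mem_PM hm).2.2.pos hlam0 hX0 hHX1 hyX hyX2 hyH
  refine h1.trans ?_
  rw [← mul_sum]
  set r : ℕ := (k + 2 - KS.em k) / 2 with hr
  have hemk : KS.em k ≤ k := by
    have : (KS.em k : ℝ) ≤ k := by linarith [hem.2]
    exact_mod_cast this
  have hr1 : k + 1 ≤ KS.em k + 2 * r := by omega
  have hr2 : (r : ℝ) ≤ 0.2525 * k + 2 := by
    have h2 : 2 * r ≤ k + 2 - KS.em k := by omega
    have h3 : 2 * r + KS.em k ≤ k + 2 := by omega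
    have h4 : 2 * (r : ℝ) + KS.em k ≤ k + 2 := by exact_mod_cast h3
    linarith [hem.1]
  have hHn : ∀ n m : ℕ, m ∈ PM k → y ≤ m * n → 2 ^ e ≤ n := by
    intro n m hm hmn
    obtain ⟨a1, a2, a3⟩ := mem_PM hm
    by_contra hcon
    push Not at hcon
    have h2 : m * n ≤ 2 * 2 ^ KS.em k * 2 ^ e := Nat.mul_le_mul a2 hcon.le
    have h3 : 2 * 2 ^ KS.em k * 2 ^ e < 2 ^ k := by
      rw [mul_comm 2, ← pow_succ, ← pow_add]
      apply Nat.pow_lt_pow_right (by norm_num)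
      have : ((KS.em k + 1 + e : ℕ) : ℝ) < k := by
        push_cast
        linarith [hem.2, heR.2]
      exact_mod_cast this
    omega
  have h2 := cof_sum k y (2 ^ e) (2 ^ KS.em k) r Nat.one_le_two_pow (PM k) (fun m hm => (mem_PM hm).1) hHn hyH (by
    rw [← pow_add]; exact Nat.pow_le_pow_right (by norm_num) hr1)
  have hfew' : (((PM k ×ˢ range (2 ^ (k + 1))).filter (fun p => p.2.Prime ∧ y ≤ p.1 * p.2 ∧
      p.1 * p.2 < y + 2 ^ e)).card : ℝ) ≤ cS / (200 * p) * 2 ^ e / (k : ℝ) ^ 2 := by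
    have e1 : ((PM k ×ˢ range (2 ^ (k + 1))).filter (fun p => p.2.Prime ∧ y ≤ p.1 * p.2 ∧
      p.1 * p.2 < y + 2 ^ e)).card = nE2 k e j := by
      unfold nE2
      congr 1
      apply filter_congr
      intro q _
      have : y + 2 ^ e = 2 ^ k + (j + 1) * 2 ^ e := by rw [hy]; ring
      rw [this, hy]
    rw [e1]
    exact hfew.le
  have h3 : 1 / lamk p d k * ∑ m ∈ PM k, ∑ n ∈ cof k y (2 ^ e) m, Λ n ≤
      1 / lamk p d k * (((k + 1) * Real.log 2) * (cS / (200 * p) * 2 ^ e / (k : ℝ) ^ 2 +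
        ((2:ℝ) ^ r + 1) * (k + 1))) := by
    apply mul_le_mul_of_nonneg_left _ (by positivity)
    refine h2.trans ?_
    apply mul_le_mul_of_nonneg_left _ (by positivity)
    linarith
  refine h3.trans ?_
  -- numerical part
  have hr3 : ((2:ℝ) ^ r + 1) ≤ 8 * (2:ℝ) ^ ((0.26:ℝ) * k) := by
    have h4 : (2:ℝ) ^ r ≤ 4 * (2:ℝ) ^ ((0.26:ℝ) * k) := by
      rw [← Real.rpow_natCast, show (4:ℝ) = 2 ^ (2:ℝ) by norm_num, ← Real.rpow_add (by norm_num)]
      apply Real.rpow_le_rpow_of_exponent_le (by norm_num)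
      linarith
    have h5 : 1 ≤ (2:ℝ) ^ ((0.26:ℝ) * k) := Real.one_le_rpow (by norm_num) (by positivity)
    linarith
  have he5 : (2:ℝ) ^ ((0.48:ℝ) * k) ≤ 2 ^ e := by
    rw [← Real.rpow_natCast 2 e]
    apply Real.rpow_le_rpow_of_exponent_le (by norm_num)
    linarith [heR.1]
  set H : ℝ := (2:ℝ) ^ e with hH
  have hH0 : 0 < H := by positivity
  have hk1 : (k:ℝ) + 1 ≤ 1.001 * k := by linarith
  have hlog2 := Real.log_two_lt_d9
  have hlog0 : 0 < Real.log 2 := Real.log_pos (by norm_num)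
  have hkl : ((k:ℝ) + 1) * Real.log 2 ≤ 0.7 * k := by
    calc ((k:ℝ) + 1) * Real.log 2 ≤ (1.001 * k) * 0.6932 := by
          apply mul_le_mul hk1 (by linarith) hlog0.le (by positivity)
      _ ≤ 0.7 * k := by linarith
  have hsec : ((2:ℝ) ^ r + 1) * (k + 1) ≤ cS / (1000 * p) * H / (k:ℝ) ^ 2 := by
    rw [le_div_iff₀ (by positivity)]
    calc ((2:ℝ) ^ r + 1) * (k + 1) * (k:ℝ) ^ 2 ≤ (8 * (2:ℝ) ^ ((0.26:ℝ) * k)) * (1.001 * k) * (k:ℝ) ^ 2 := by
          gcongr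
      _ ≤ cS / (1000 * p) * ((10000 * p / cS) * (k : ℝ) ^ 4 * (2:ℝ) ^ ((0.26:ℝ) * k)) := by
          have e5 : cS / (1000 * p) * ((10000 * p / cS) * (k : ℝ) ^ 4 * (2:ℝ) ^ ((0.26:ℝ) * k)) =
            10 * (k : ℝ) ^ 4 * (2:ℝ) ^ ((0.26:ℝ) * k) := by
            field_simp; norm_num
          rw [e5]
          have h6 : (0:ℝ) < (2:ℝ) ^ ((0.26:ℝ) * k) := by positivity
          have h7 : 8 * (1.001 * (k:ℝ)) * (k:ℝ) ^ 2 ≤ 10 * (k : ℝ) ^ 4 := by
            have : (k:ℝ) ^ 3 ≤ (k:ℝ) ^ 4 := pow_le_pow_right₀ (by linarith) (by norm_num)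
            nlinarith
          calc _ = (8 * (1.001 * (k:ℝ)) * (k:ℝ) ^ 2) * (2:ℝ) ^ ((0.26:ℝ) * k) := by ring
            _ ≤ _ := by gcongr
      _ ≤ cS / (1000 * p) * H := by
          gcongr
          exact hbig.trans he5
  rw [hlamdef]
  calc 1 / (H / (8 * p * X)) * (((k + 1) * Real.log 2) * (cS / (200 * p) * H / (k : ℝ) ^ 2 +
        ((2:ℝ) ^ r + 1) * (k + 1))) ≤
      1 / (H / (8 * p * X)) * ((0.7 * k) * (cS / (200 * p) * H / (k : ℝ) ^ 2 +
        cS / (1000 * p) * H / (k:ℝ) ^ 2)) := by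
        gcongr
    _ = (8 * 0.7 * 0.006) * X * (cS / k) := by
        field_simp
        norm_num
    _ ≤ 1 / 8 * X * (cS / k) := by
        gcongr
        norm_num
    _ ≤ 1 / 8 * X * S1 k := by
        gcongr

end Pool.Agent.Helper60.KE
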